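import Mathlib

/-!
# Digit noise: resampling single digits

`noise d T` is the law of a sequence of independent digits, fair at the places in `T` and equal to
the prescribed digits `d` elsewhere.
-/

set_option autoImplicit false

open MeasureTheory Filter Topology
open scoped ENNReal

namespace Q83.NP

/-- a fair digit in base `b` -/
noncomputable def fair (b : ℕ) : Measure (Fin b) := (b : ℝ≥0∞)⁻¹ • Measure.count

open Classical in
/-- independent digits: fair at the places in `T`, equal to the prescribed digits `d` elsewhere -/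
noncomputable def noise {b : ℕ} (d : ℕ → Fin b) (T : Set ℕ) : Measure (ℕ → Fin b) :=
  Measure.infinitePi fun i => if i ∈ T then fair b else Measure.dirac (d i)

lemma fair_prob {b : ℕ} (hb : 2 ≤ b) : IsProbabilityMeasure (fair b) := by
  constructor
  have h1 : (Measure.count (Set.univ : Set (Fin b))) = (b : ℝ≥0∞) := by
    rw [Measure.count_univ]; simp
  rw [fair, Measure.smul_apply, h1, smul_eq_mul]
  exact ENNReal.inv_mul_cancel (by exact_mod_cast (by omega : b ≠ 0)) (ENNReal.natCast_ne_top b)

open Classical in
lemma marg_prob {b : ℕ} (hb : 2 ≤ b) (d : ℕ → Fin b) (T : Set ℕ) (i : ℕ) :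
    IsProbabilityMeasure (if i ∈ T then fair b else Measure.dirac (d i)) := by
  split_ifs
  · exact fair_prob hb
  · infer_instance

lemma noise_prob {b : ℕ} (hb : 2 ≤ b) (d : ℕ → Fin b) (T : Set ℕ) :
    IsProbabilityMeasure (noise d T) := by
  classical
  have hp : ∀ i, IsProbabilityMeasure (if i ∈ T then fair b else Measure.dirac (d i)) :=
    marg_prob hb d T
  unfold noise; infer_instance

lemma noise_off {b : ℕ} (hb : 2 ≤ b) (d : ℕ → Fin b) (T : Set ℕ) :
    ∀ᵐ ω ∂(noise d T), ∀ i ∉ T, ω i = d i := by
  classical
  have hp : ∀ i, IsProbabilityMeasure (if i ∈ T then fair b else Measure.dirac (d i)) :=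
    marg_prob hb d T
  rw [ae_all_iff]
  intro i
  by_cases hi : i ∈ T
  · exact Eventually.of_forall fun ω h => absurd hi h
  · have h1 : (noise d T) {ω : ℕ → Fin b | ω i = d i}ᶜ = 0 := by
      have : {ω : ℕ → Fin b | ω i = d i}ᶜ = Set.pi ({i} : Finset ℕ) fun _ => {d i}ᶜ := by
        ext ω; simp [Set.mem_pi]
      rw [this, noise, Measure.infinitePi_pi _ fun j _ => (measurableSet_singleton _).compl]
      simp [hi]
    rw [ae_iff]
    refine measure_mono_null ?_ h1
    intro ω hω
    simp only [Set.mem_ofPred_eq, Classical.not_imp] at hω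
    exact hω.2

lemma upd_meas {b : ℕ} (i : ℕ) :
    Measurable (fun p : (ℕ → Fin b) × Fin b => Function.update p.1 i p.2) := by
  rw [measurable_pi_iff]
  intro j
  by_cases h : j = i
  · subst h
    simp only [Function.update_self]
    exact measurable_snd
  · simp only [Function.update_of_ne h]
    exact (measurable_pi_apply j).comp measurable_fst

lemma upd_meas1 {b : ℕ} (i : ℕ) (a : Fin b) :
    Measurable (fun ω : ℕ → Fin b => Function.update ω i a) :=
  (upd_meas i).comp (measurable_id.prodMk measurable_const)

lemma resample_map {b : ℕ} (hb : 2 ≤ b) (d : ℕ → Fin b) (T : Set ℕ) {i : ℕ} (hi : i ∈ T) :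
    ((noise d T).prod (fair b)).map (fun p => Function.update p.1 i p.2) = noise d T := by
  classical
  have hp : ∀ i, IsProbabilityMeasure (if i ∈ T then fair b else Measure.dirac (d i)) :=
    marg_prob hb d T
  have hn := noise_prob hb d T
  have hf := fair_prob hb
  conv_rhs => rw [noise]
  apply Measure.eq_infinitePi
  intro s t ht
  rw [Measure.map_apply (upd_meas i) (MeasurableSet.pi s.countable_toSet fun j _ => ht j)]
  by_cases his : i ∈ s
  · have e1 : (fun p : (ℕ → Fin b) × Fin b => Function.update p.1 i p.2) ⁻¹' (Set.pi s t) =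
        (Set.pi (s.erase i : Finset ℕ) t) ×ˢ (t i) := by
      ext p
      simp only [Set.mem_preimage, Set.mem_pi, Finset.mem_coe, Set.mem_prod, Finset.mem_erase]
      constructor
      · intro h
        refine ⟨fun j hj => ?_, ?_⟩
        · have := h j hj.2
          rwa [Function.update_of_ne hj.1] at this
        · have := h i his
          rwa [Function.update_self] at this
      · rintro ⟨h1, h2⟩ j hj
        by_cases hji : j = i
        · subst hji; rwa [Function.update_self]
        · rw [Function.update_of_ne hji]
          exact h1 j ⟨hji, hj⟩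
    rw [e1, Measure.prod_prod, noise, Measure.infinitePi_pi _ fun j _ => ht j,
      ← Finset.mul_prod_erase s _ his, if_pos hi, mul_comm]
  · have e1 : (fun p : (ℕ → Fin b) × Fin b => Function.update p.1 i p.2) ⁻¹' (Set.pi s t) =
        (Set.pi (s : Finset ℕ) t) ×ˢ Set.univ := by
      ext p
      simp only [Set.mem_preimage, Set.mem_pi, Finset.mem_coe, Set.mem_prod, Set.mem_univ, and_true]
      refine forall_congr' fun j => forall_congr' fun hj => ?_
      have hji : j ≠ i := fun h => his (h ▸ hj)
      rw [Function.update_of_ne hji]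
    rw [e1, Measure.prod_prod, noise, Measure.infinitePi_pi _ fun j _ => ht j, measure_univ, mul_one]

lemma integral_fair {b : ℕ} {E : Type*} [NormedAddCommGroup E] [NormedSpace ℝ E] [CompleteSpace E]
    (f : Fin b → E) : ∫ a, f a ∂(fair b) = (b : ℝ)⁻¹ • ∑ a, f a := by
  rw [fair, integral_smul_measure, integral_count]
  congr 1
  simp

/-- **Resampling one digit.** -/
theorem resample {b : ℕ} (hb : 2 ≤ b) (d : ℕ → Fin b) (T : Set ℕ) {i : ℕ} (hi : i ∈ T)
    {E : Type*} [NormedAddCommGroup E] [NormedSpace ℝ E] [CompleteSpace E]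
    (F : (ℕ → Fin b) → E) (hF : StronglyMeasurable F) (C : ℝ) (hC : ∀ ω, ‖F ω‖ ≤ C) :
    ∫ ω, F ω ∂(noise d T) = ∫ ω, (b : ℝ)⁻¹ • ∑ a : Fin b, F (Function.update ω i a) ∂(noise d T) := by
  have hn := noise_prob hb d T
  have hf := fair_prob hb
  conv_lhs => rw [← resample_map hb d T hi]
  rw [integral_map (upd_meas i).aemeasurable hF.aestronglyMeasurable, integral_prod]
  · refine integral_congr_ae (Eventually.of_forall fun ω => ?_)
    exact integral_fair _
  · exact Integrable.of_bound (hF.comp_measurable (upd_meas i)).aestronglyMeasurable C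
      (Eventually.of_forall fun p => hC _)

end Q83.NP
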