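import Pool.Agent.Q83.NP.A
import Pool.Agent.H493R3.Chain

/-!
# Digit noise: products of factors with small conditional means
-/

set_option autoImplicit false

open MeasureTheory Filter Topology Finset
open scoped ENNReal
open Pool.Agent.H493R3 (ee ee_norm ee_add ee_neg ee_int ee_lip)

namespace Q83.NP

variable {b : ℕ}

theorem prod_bound (hb : 2 ≤ b) (d : ℕ → Fin b) (T : Set ℕ) (C : Set (ℕ → Fin b))
    (hC : MeasurableSet C) (κ : ℝ) (hκ : κ ≤ 1) (c : ℕ → ℕ) (g : ℕ → (ℕ → Fin b) → ℝ)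
    (hg : ∀ i, Measurable (g i)) (h0 : ∀ i ω, 0 ≤ g i ω) (h1 : ∀ i ω, g i ω ≤ 1) (M : ℕ) :
    (∀ i < M, c i ∈ T) →
    (∀ i < M, ∀ ω a, (Function.update ω (c i) a ∈ C ↔ ω ∈ C)) →
    (∀ i j, i < j → j < M → ∀ ω a, g i (Function.update ω (c j) a) = g i ω) →
    (∀ i < M, ∀ ω ∈ C, (b : ℝ)⁻¹ * ∑ a, g i (Function.update ω (c i) a) ≤ 1 - κ) →
    ∫ ω in C, ∏ i ∈ range M, g i ω ∂(noise d T) ≤ (1 - κ) ^ M * (noise d T).real C := by
  have hn := noise_prob hb d T
  classical
  induction M with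
  | zero =>
    intro _ _ _ _
    simp
  | succ M ih =>
    intro hcT hCi hinv havg
    have ihM := ih (fun i hi => hcT i (by omega)) (fun i hi => hCi i (by omega))
      (fun i j hij hj => hinv i j hij (by omega)) (fun i hi => havg i (by omega))
    have hPm : Measurable fun ω => ∏ i ∈ range M, g i ω := Finset.measurable_fun_prod _ fun i _ => hg i
    have hP0 : ∀ ω, 0 ≤ ∏ i ∈ range M, g i ω := fun ω => Finset.prod_nonneg fun i _ => h0 i ω
    have hP1 : ∀ ω, ∏ i ∈ range M, g i ω ≤ 1 := fun ω =>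
      Finset.prod_le_one (fun i _ => h0 i ω) fun i _ => h1 i ω
    obtain ⟨F, hF⟩ : ∃ F : (ℕ → Fin b) → ℝ,
      F = C.indicator fun ω => ∏ i ∈ range (M + 1), g i ω := ⟨_, rfl⟩
    have hFm : Measurable F := by
      rw [hF]; exact (Finset.measurable_fun_prod _ fun i _ => hg i).indicator hC
    have hFb : ∀ ω, ‖F ω‖ ≤ 1 := by
      intro ω
      rw [hF]
      simp only [Set.indicator]
      split_ifs
      · rw [Real.norm_eq_abs, abs_of_nonneg (Finset.prod_nonneg fun i _ => h0 i ω)]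
        exact Finset.prod_le_one (fun i _ => h0 i ω) fun i _ => h1 i ω
      · simp
    have e1 : ∫ ω in C, ∏ i ∈ range (M + 1), g i ω ∂(noise d T) = ∫ ω, F ω ∂(noise d T) := by
      rw [hF, integral_indicator hC]
    rw [e1, resample hb d T (hcT M (by omega)) F hFm.stronglyMeasurable 1 hFb]
    have e2 : ∀ ω, (b : ℝ)⁻¹ • ∑ a : Fin b, F (Function.update ω (c M) a) =
        C.indicator (fun ω => (∏ i ∈ range M, g i ω) *
          ((b : ℝ)⁻¹ * ∑ a, g M (Function.update ω (c M) a))) ω := by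
      intro ω
      by_cases hω : ω ∈ C
      · rw [Set.indicator_of_mem hω, smul_eq_mul, Finset.mul_sum, Finset.mul_sum, Finset.mul_sum]
        refine Finset.sum_congr rfl fun a _ => ?_
        rw [hF, Set.indicator_of_mem ((hCi M (by omega) ω a).2 hω), Finset.prod_range_succ,
          Finset.prod_congr rfl fun i hi =>
            hinv i M (Finset.mem_range.1 hi) (by omega) ω a]
        ring
      · rw [Set.indicator_of_notMem hω, smul_eq_mul]
        have : ∀ a : Fin b, F (Function.update ω (c M) a) = 0 := by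
          intro a
          rw [hF, Set.indicator_of_notMem fun h => hω ((hCi M (by omega) ω a).1 h)]
        simp [this]
    rw [integral_congr_ae (Eventually.of_forall e2), integral_indicator hC]
    have hgu : ∀ a, Measurable fun ω => g M (Function.update ω (c M) a) := fun a =>
      (hg M).comp (upd_meas1 _ a)
    have hAm : Measurable fun ω => (b : ℝ)⁻¹ * ∑ a, g M (Function.update ω (c M) a) :=
      (Finset.measurable_fun_sum _ fun a _ => hgu a).const_mul _
    have hb0 : (0 : ℝ) < b := by exact_mod_cast (by omega : 0 < b)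
    have hA0 : ∀ ω, 0 ≤ (b : ℝ)⁻¹ * ∑ a, g M (Function.update ω (c M) a) := fun ω =>
      mul_nonneg (by positivity) (Finset.sum_nonneg fun a _ => h0 M _)
    have hA1 : ∀ ω, (b : ℝ)⁻¹ * ∑ a, g M (Function.update ω (c M) a) ≤ 1 := by
      intro ω
      have : ∑ a, g M (Function.update ω (c M) a) ≤ ∑ _a : Fin b, (1 : ℝ) :=
        Finset.sum_le_sum fun a _ => h1 M _
      rw [Finset.sum_const, Finset.card_univ, Fintype.card_fin, nsmul_eq_mul, mul_one] at this
      rw [inv_mul_le_iff₀ hb0, mul_one]; exact this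
    have hPAm : Measurable fun ω => (∏ i ∈ range M, g i ω) *
        ((b : ℝ)⁻¹ * ∑ a, g M (Function.update ω (c M) a)) := hPm.mul hAm
    have hPκm : Measurable fun ω => (1 - κ) * ∏ i ∈ range M, g i ω := hPm.const_mul _
    calc ∫ ω in C, (∏ i ∈ range M, g i ω) * ((b : ℝ)⁻¹ * ∑ a, g M (Function.update ω (c M) a)) ∂(noise d T)
        ≤ ∫ ω in C, (1 - κ) * ∏ i ∈ range M, g i ω ∂(noise d T) := by
          refine setIntegral_mono_on ?_ ?_ hC fun ω hω => ?_
          · refine (Integrable.of_bound hPAm.aestronglyMeasurable 1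
              (Eventually.of_forall fun ω => ?_)).integrableOn
            rw [Real.norm_eq_abs, abs_of_nonneg (mul_nonneg (hP0 ω) (hA0 ω))]
            exact mul_le_one₀ (hP1 ω) (hA0 ω) (hA1 ω)
          · refine (Integrable.of_bound hPκm.aestronglyMeasurable |1 - κ|
              (Eventually.of_forall fun ω => ?_)).integrableOn
            rw [Real.norm_eq_abs, abs_mul, abs_of_nonneg (hP0 ω)]
            exact mul_le_of_le_one_right (abs_nonneg _) (hP1 ω)
          · rw [mul_comm (1 - κ)]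
            exact mul_le_mul_of_nonneg_left (havg M (by omega) ω hω) (hP0 ω)
      _ = (1 - κ) * ∫ ω in C, ∏ i ∈ range M, g i ω ∂(noise d T) := integral_const_mul _ _
      _ ≤ (1 - κ) * ((1 - κ) ^ M * (noise d T).real C) :=
          mul_le_mul_of_nonneg_left ihM (by linarith)
      _ = _ := by rw [pow_succ]; ring

/-- the mean of `ee (a y)` over the digits `a` -/
noncomputable def dir (b : ℕ) (y : ℝ) : ℂ := (b : ℝ)⁻¹ • ∑ a : Fin b, ee ((a : ℕ) * y)

lemma ee_cont : Continuous ee := by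
  unfold ee
  fun_prop

lemma dir_cont : Continuous (dir b) := by
  have h : ∀ a : Fin b, Continuous fun y : ℝ => ee ((a : ℕ) * y) := fun a =>
    ee_cont.comp (by fun_prop)
  have h2 : Continuous fun y : ℝ => ∑ a : Fin b, ee ((a : ℕ) * y) :=
    continuous_finsetSum _ fun a _ => h a
  exact h2.const_smul ((b : ℝ)⁻¹)

lemma dir_le (hb : 2 ≤ b) (y : ℝ) : ‖dir b y‖ ≤ 1 := by
  have hb0 : (0 : ℝ) < b := by exact_mod_cast (by omega : 0 < b)
  unfold dir
  rw [norm_smul, norm_inv, Real.norm_of_nonneg hb0.le, inv_mul_le_iff₀ hb0, mul_one]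
  refine (norm_sum_le _ _).trans ?_
  simp [ee_norm]

/-- the distance to the nearest integer -/
noncomputable def nrm (y : ℝ) : ℝ := |y - round y|

lemma nrm_le_half (y : ℝ) : nrm y ≤ 1 / 2 := abs_sub_round y

lemma nrm_nonneg (y : ℝ) : 0 ≤ nrm y := abs_nonneg _

lemma nrm_add_le (x y : ℝ) : nrm (x + y) ≤ nrm x + |y| := by
  unfold nrm
  have := round_le (x + y) (round x)
  refine this.trans ?_
  have h2 : x + y - (round x : ℝ) = (x - round x) + y := by ring
  rw [h2]
  exact abs_add_le _ _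

lemma one_add_ee (y : ℝ) : ‖1 + ee y‖ ≤ 2 - 4 * nrm y ^ 2 := by
  have h1 : ee y = ee (y - round y) := by
    have : y = (y - round y) + ((round y : ℤ) : ℝ) := by ring
    conv_lhs => rw [this, ee_add, ee_int, mul_one]
  rw [h1]
  obtain ⟨z, hz⟩ : ∃ z, z = y - round y := ⟨_, rfl⟩
  have hz2 : |z| ≤ 1 / 2 := by rw [hz]; exact abs_sub_round y
  have hz3 : nrm y = |z| := by rw [hz]; rfl
  rw [← hz, hz3, sq_abs]
  have h2 : ‖1 + ee z‖ ^ 2 = 2 + 2 * Real.cos (2 * Real.pi * z) := by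
    have e1 : ee z = ((Real.cos (2 * Real.pi * z) : ℝ) : ℂ) + ((Real.sin (2 * Real.pi * z) : ℝ) : ℂ) * Complex.I := by
      unfold ee
      rw [show (2 * (Real.pi : ℂ) * z * Complex.I) = ((2 * Real.pi * z : ℝ) : ℂ) * Complex.I by push_cast; ring,
        Complex.exp_mul_I, Complex.ofReal_cos, Complex.ofReal_sin]
    rw [e1, Complex.sq_norm, Complex.normSq_apply]
    simp only [Complex.add_re, Complex.one_re, Complex.ofReal_re, Complex.mul_re, Complex.I_re,
      Complex.ofReal_im, Complex.I_im, Complex.add_im, Complex.one_im, Complex.mul_im]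
    have := Real.sin_sq_add_cos_sq (2 * Real.pi * z)
    nlinarith
  have h3 : |2 * Real.pi * z| ≤ Real.pi := by
    rw [abs_mul, abs_of_pos (by positivity : 0 < 2 * Real.pi)]
    nlinarith [Real.pi_pos]
  have h4 := Real.cos_le_one_sub_mul_cos_sq h3
  have h5 : 2 / Real.pi ^ 2 * (2 * Real.pi * z) ^ 2 = 8 * z ^ 2 := by
    field_simp; ring
  rw [h5] at h4
  have h6 : z ^ 2 ≤ 1 / 4 := by
    rw [← sq_abs]; nlinarith [abs_nonneg z]
  have h7 : ‖1 + ee z‖ ^ 2 ≤ (2 - 4 * z ^ 2) ^ 2 := by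
    rw [h2]; nlinarith [sq_nonneg (z ^ 2)]
  exact le_of_sq_le_sq h7 (by linarith)
where
  le_of_sq_le_sq {u v : ℝ} (h : u ^ 2 ≤ v ^ 2) (hv : 0 ≤ v) : u ≤ v := by
    exact le_of_not_gt fun hlt => by nlinarith [pow_lt_pow_left₀ hlt hv (two_ne_zero)]

lemma dir_nrm (hb : 2 ≤ b) (y : ℝ) : ‖dir b y‖ ≤ 1 - 4 / b * nrm y ^ 2 := by
  have hb0 : (0 : ℝ) < b := by exact_mod_cast (by omega : 0 < b)
  obtain ⟨m, rfl⟩ : ∃ m, b = m + 2 := ⟨b - 2, by omega⟩
  unfold dir
  rw [norm_smul, norm_inv, Real.norm_of_nonneg hb0.le, inv_mul_le_iff₀ hb0]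
  rw [Fin.sum_univ_succ, Fin.sum_univ_succ, ← add_assoc]
  have h1 := one_add_ee y
  have h2 : ‖∑ i : Fin m, ee ((((i.succ.succ : Fin (m + 2)) : ℕ) : ℝ) * y)‖ ≤ m := by
    refine (norm_sum_le _ _).trans ?_
    simp [ee_norm]
  have h3 : ee (((0 : Fin (m + 2)) : ℕ) * y) + ee ((((0 : Fin (m + 1)).succ : Fin (m + 2)) : ℕ) * y) = 1 + ee y := by
    have : ee 0 = 1 := by have := ee_int 0; simpa using this
    simp [this]
  rw [h3]
  refine (norm_add_le _ _).trans ?_
  have h4 : ((m + 2 : ℕ) : ℝ) * (1 - 4 / ((m + 2 : ℕ) : ℝ) * nrm y ^ 2) = (m + 2) - 4 * nrm y ^ 2 := by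
    field_simp; push_cast; ring
  rw [h4]
  linarith

/-- averaging the exponentials -/
theorem exp_avg (hb : 2 ≤ b) (d : ℕ → Fin b) (T : Set ℕ) (C : Set (ℕ → Fin b))
    (hC : MeasurableSet C) (τ : ℕ → ℕ) (lam : ℕ → ℝ) (θ : (ℕ → Fin b) → ℝ) (hθ : Measurable θ)
    (M : ℕ) :
    (∀ i < M, τ i ∈ T) → (∀ i < M, ∀ j < M, i ≠ j → τ i ≠ τ j) →
    (∀ i < M, ∀ ω a, (Function.update ω (τ i) a ∈ C ↔ ω ∈ C)) →
    (∀ i < M, ∀ ω a, θ (Function.update ω (τ i) a) = θ ω) →
    ∀ E0 : (ℕ → Fin b) → ℂ, Measurable E0 → (∀ ω, ‖E0 ω‖ ≤ 1) →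
    (∀ i < M, ∀ ω a, E0 (Function.update ω (τ i) a) = E0 ω) →
    ∫ ω in C, E0 ω * ∏ j ∈ range M, ee ((ω (τ j) : ℕ) * (θ ω * lam j)) ∂(noise d T) =
    ∫ ω in C, E0 ω * ∏ j ∈ range M, dir b (θ ω * lam j) ∂(noise d T) := by
  have hn := noise_prob hb d T
  classical
  induction M with
  | zero => intro _ _ _ _ E0 _ _ _; simp
  | succ M ih =>
    intro hT hne hCi hθi E0 hE0 hE0b hE0i
    have hdm : ∀ t, Measurable fun ω : ℕ → Fin b => ((ω t : ℕ) : ℝ) := fun t =>
      (measurable_from_top (f := fun a : Fin b => ((a : ℕ) : ℝ))).comp (measurable_pi_apply t)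
    have hem : Measurable fun ω : ℕ → Fin b => ee ((ω (τ M) : ℕ) * (θ ω * lam M)) :=
      ee_cont.measurable.comp ((hdm _).mul (hθ.mul_const _))
    have h1 := ih (fun i hi => hT i (by omega)) (fun i hi j hj => hne i (by omega) j (by omega))
      (fun i hi => hCi i (by omega)) (fun i hi => hθi i (by omega))
      (fun ω => E0 ω * ee ((ω (τ M) : ℕ) * (θ ω * lam M))) (hE0.mul hem)
      (fun ω => by rw [norm_mul, ee_norm, mul_one]; exact hE0b ω)
      (fun i hi ω a => by
        rw [hE0i i (by omega), hθi i (by omega),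
          Function.update_of_ne (hne M (by omega) i (by omega) (by omega))])
    have e1 : ∫ ω in C, E0 ω * ∏ j ∈ range (M + 1), ee ((ω (τ j) : ℕ) * (θ ω * lam j)) ∂(noise d T) =
        ∫ ω in C, (E0 ω * ee ((ω (τ M) : ℕ) * (θ ω * lam M))) *
          ∏ j ∈ range M, dir b (θ ω * lam j) ∂(noise d T) := by
      rw [← h1]
      refine integral_congr_ae (Eventually.of_forall fun ω => ?_)
      simp only
      rw [Finset.prod_range_succ]; ring
    rw [e1]
    have hDm : Measurable fun ω : ℕ → Fin b => ∏ j ∈ range M, dir b (θ ω * lam j) :=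
      Finset.measurable_fun_prod _ fun j _ => dir_cont.measurable.comp (hθ.mul_const _)
    have hDb : ∀ ω : ℕ → Fin b, ‖∏ j ∈ range M, dir b (θ ω * lam j)‖ ≤ 1 := by
      intro ω
      rw [norm_prod]
      exact Finset.prod_le_one (fun _ _ => norm_nonneg _) fun _ _ => dir_le hb _
    obtain ⟨F, hF⟩ : ∃ F : (ℕ → Fin b) → ℂ, F = C.indicator fun ω =>
      (E0 ω * ee ((ω (τ M) : ℕ) * (θ ω * lam M))) * ∏ j ∈ range M, dir b (θ ω * lam j) := ⟨_, rfl⟩
    have hFm : Measurable F := by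
      rw [hF]; exact ((hE0.mul hem).mul hDm).indicator hC
    have hFb : ∀ ω, ‖F ω‖ ≤ 1 := by
      intro ω
      rw [hF]
      simp only [Set.indicator]
      split_ifs
      · rw [norm_mul, norm_mul, ee_norm, mul_one]
        exact mul_le_one₀ (hE0b ω) (norm_nonneg _) (hDb ω)
      · simp
    rw [← integral_indicator hC, ← hF, resample hb d T (hT M (by omega)) F hFm.stronglyMeasurable 1 hFb,
      ← integral_indicator hC]
    refine integral_congr_ae (Eventually.of_forall fun ω => ?_)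
    simp only
    by_cases hω : ω ∈ C
    · rw [Set.indicator_of_mem hω, Finset.prod_range_succ, ← mul_assoc]
      have e3 : ∀ a : Fin b, F (Function.update ω (τ M) a) =
          (E0 ω * ∏ j ∈ range M, dir b (θ ω * lam j)) * ee ((a : ℕ) * (θ ω * lam M)) := by
        intro a
        rw [hF, Set.indicator_of_mem ((hCi M (by omega) ω a).2 hω), hE0i M (by omega),
          hθi M (by omega), Function.update_self]
        ring
      simp_rw [e3]
      rw [← Finset.mul_sum, ← mul_smul_comm]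
      rfl
    · rw [Set.indicator_of_notMem hω]
      have : ∀ a : Fin b, F (Function.update ω (τ M) a) = 0 := by
        intro a
        rw [hF, Set.indicator_of_notMem fun h => hω ((hCi M (by omega) ω a).1 h)]
      simp [this]

theorem exp_avg_norm (hb : 2 ≤ b) (d : ℕ → Fin b) (T : Set ℕ) (C : Set (ℕ → Fin b))
    (hC : MeasurableSet C) (τ : ℕ → ℕ) (lam : ℕ → ℝ) (θ : (ℕ → Fin b) → ℝ) (hθ : Measurable θ)
    (M : ℕ) (h1 : ∀ i < M, τ i ∈ T) (h2 : ∀ i < M, ∀ j < M, i ≠ j → τ i ≠ τ j)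
    (h3 : ∀ i < M, ∀ ω a, (Function.update ω (τ i) a ∈ C ↔ ω ∈ C))
    (h4 : ∀ i < M, ∀ ω a, θ (Function.update ω (τ i) a) = θ ω)
    (E0 : (ℕ → Fin b) → ℂ) (h5 : Measurable E0) (h6 : ∀ ω, ‖E0 ω‖ ≤ 1)
    (h7 : ∀ i < M, ∀ ω a, E0 (Function.update ω (τ i) a) = E0 ω) :
    ‖∫ ω in C, E0 ω * ∏ j ∈ range M, ee ((ω (τ j) : ℕ) * (θ ω * lam j)) ∂(noise d T)‖ ≤
    ∫ ω in C, ∏ j ∈ range M, ‖dir b (θ ω * lam j)‖ ∂(noise d T) := by
  have hn := noise_prob hb d T
  rw [exp_avg hb d T C hC τ lam θ hθ M h1 h2 h3 h4 E0 h5 h6 h7]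
  refine (norm_integral_le_integral_norm _).trans ?_
  have hm : Measurable fun ω : ℕ → Fin b => ∏ j ∈ range M, ‖dir b (θ ω * lam j)‖ :=
    Finset.measurable_fun_prod _ fun j _ => (dir_cont.measurable.comp (hθ.mul_const _)).norm
  have hm2 : Measurable fun ω : ℕ → Fin b => ∏ j ∈ range M, dir b (θ ω * lam j) :=
    Finset.measurable_fun_prod _ fun j _ => dir_cont.measurable.comp (hθ.mul_const _)
  have hb1 : ∀ ω, ∏ j ∈ range M, ‖dir b (θ ω * lam j)‖ ≤ 1 := fun ω =>
    Finset.prod_le_one (fun _ _ => norm_nonneg _) fun _ _ => dir_le hb _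
  have hle : ∀ ω, ‖E0 ω * ∏ j ∈ range M, dir b (θ ω * lam j)‖ ≤
      ∏ j ∈ range M, ‖dir b (θ ω * lam j)‖ := by
    intro ω
    rw [norm_mul, norm_prod]
    exact mul_le_of_le_one_left (Finset.prod_nonneg fun _ _ => norm_nonneg _) (h6 ω)
  refine integral_mono ?_ ?_ hle
  · exact (Integrable.of_bound (h5.mul hm2).norm.aestronglyMeasurable 1
      (Eventually.of_forall fun ω => by
        rw [norm_norm]; exact (hle ω).trans (hb1 ω))).integrableOn
  · exact (Integrable.of_bound hm.aestronglyMeasurable 1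
      (Eventually.of_forall fun ω => by
        rw [Real.norm_eq_abs, abs_of_nonneg (Finset.prod_nonneg fun _ _ => norm_nonneg _)]
        exact hb1 ω)).integrableOn

end Q83.NP
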