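import Pool.Agent.Q83.NP.B

/-!
# Digit noise: the core estimate
-/

set_option autoImplicit false
set_option linter.unusedSectionVars false

open MeasureTheory Filter Topology Finset
open scoped ENNReal
open Pool.Agent.H493R3 (ee ee_norm ee_add ee_neg ee_int ee_lip)

namespace Q83.NP

variable {b : ℕ} [NeZero b]

/-- put the digits at the places of `S` to zero -/
def zo (S : Finset ℕ) (ω : ℕ → Fin b) : ℕ → Fin b := fun i => if i ∈ S then 0 else ω i

lemma zo_update {S : Finset ℕ} {i : ℕ} (hi : i ∈ S) (ω : ℕ → Fin b) (a : Fin b) :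
    zo S (Function.update ω i a) = zo S ω := by
  funext j
  unfold zo
  by_cases hj : j ∈ S
  · simp [hj]
  · have : j ≠ i := fun h => hj (h ▸ hi)
    simp [hj, Function.update_of_ne this]

lemma zo_update_notMem {S : Finset ℕ} {i : ℕ} (hi : i ∉ S) (ω : ℕ → Fin b) (a : Fin b) :
    zo S (Function.update ω i a) = Function.update (zo S ω) i a := by
  funext j
  unfold zo
  by_cases hji : j = i
  · subst hji; simp [hi]
  · rw [Function.update_of_ne hji, Function.update_of_ne hji]

lemma zo_meas (S : Finset ℕ) : Measurable (zo (b := b) S) := by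
  rw [measurable_pi_iff]
  intro j
  unfold zo
  by_cases hj : j ∈ S
  · simp only [hj, if_true]; exact measurable_const
  · simp only [hj, if_false]; exact measurable_pi_apply j

lemma term_cont (n : ℕ) : Continuous fun ω : ℕ → Fin b => Real.ofDigitsTerm ω n := by
  unfold Real.ofDigitsTerm
  have : Continuous fun a : Fin b => ((a : ℕ) : ℝ) := continuous_of_discreteTopology
  exact (this.comp (continuous_apply n)).mul continuous_const

lemma s_meas : Measurable fun ω : ℕ → Fin b => Real.ofDigits ω := by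
  have h : ∀ n, Measurable fun ω : ℕ → Fin b => ∑ i ∈ range n, Real.ofDigitsTerm ω i := fun n =>
    Finset.measurable_fun_sum _ fun i _ => by
      unfold Real.ofDigitsTerm
      exact ((measurable_from_top (f := fun a : Fin b => ((a : ℕ) : ℝ))).comp
        (measurable_pi_apply i)).mul_const _
  refine measurable_of_tendsto_metrizable h ?_
  rw [tendsto_pi_nhds]
  intro ω
  exact (Real.summable_ofDigitsTerm (digits := ω)).hasSum.tendsto_sum_nat

lemma s_zo (S : Finset ℕ) (ω : ℕ → Fin b) :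
    Real.ofDigits ω - Real.ofDigits (zo S ω) = ∑ n ∈ S, ((ω n : ℕ) : ℝ) * ((b : ℝ) ^ (n + 1))⁻¹ := by
  unfold Real.ofDigits
  rw [← Real.summable_ofDigitsTerm.tsum_sub Real.summable_ofDigitsTerm, tsum_eq_sum (s := S)]
  · refine Finset.sum_congr rfl fun n hn => ?_
    unfold Real.ofDigitsTerm zo
    simp [hn]
  · intro n hn
    unfold Real.ofDigitsTerm zo
    simp [hn]

lemma s_upd (i : ℕ) (ω : ℕ → Fin b) (a : Fin b) :
    Real.ofDigits (Function.update ω i a) =
      Real.ofDigits (zo {i} ω) + ((a : ℕ) : ℝ) * ((b : ℝ) ^ (i + 1))⁻¹ := by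
  have h := s_zo {i} (Function.update ω i a)
  rw [zo_update (by simp), Finset.sum_singleton, Function.update_self] at h
  linarith

/-- cylinders -/
def cyl (k : ℕ) (w : ℕ → Fin b) : Set (ℕ → Fin b) := {ω | ∀ i < k, ω i = w i}

omit [NeZero b] in
lemma cyl_meas (k : ℕ) (w : ℕ → Fin b) : MeasurableSet (cyl k w) := by
  have : cyl k w = ⋂ i : Fin k, {ω : ℕ → Fin b | ω i = w i} := by
    ext ω
    simp only [cyl, Set.mem_ofPred_eq, Set.mem_iInter]
    exact ⟨fun h i => h i i.2, fun h i hi => h ⟨i, hi⟩⟩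
  rw [this]
  refine MeasurableSet.iInter fun i => ?_
  exact measurable_pi_apply (i : ℕ) (measurableSet_singleton _)

omit [NeZero b] in
lemma cyl_update {k i : ℕ} (hi : k ≤ i) (w : ℕ → Fin b) (ω : ℕ → Fin b) (a : Fin b) :
    Function.update ω i a ∈ cyl k w ↔ ω ∈ cyl k w := by
  simp only [cyl, Set.mem_ofPred_eq]
  refine forall_congr' fun j => forall_congr' fun hj => ?_
  rw [Function.update_of_ne (by omega)]

lemma cyl_zo {k : ℕ} {S : Finset ℕ} (hS : ∀ i ∈ S, k ≤ i) (w : ℕ → Fin b) {ω : ℕ → Fin b}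
    (hω : ω ∈ cyl k w) : zo S ω ∈ cyl k w := by
  intro i hi
  unfold zo
  rw [if_neg fun h => absurd (hS i h) (by omega)]
  exact hω i hi

omit [NeZero b] in
lemma cyl_near {k : ℕ} (w : ℕ → Fin b) {ω : ℕ → Fin b} (hω : ω ∈ cyl k w) :
    |Real.ofDigits ω - Real.ofDigits w| ≤ ((b : ℝ) ^ k)⁻¹ :=
  Real.abs_ofDigits_sub_ofDigits_le hω

lemma nrm_meas : Measurable nrm := by
  have : nrm = fun x : ℝ => min (Int.fract x) (1 - Int.fract x) := by
    funext x; exact abs_sub_round_eq_min x
  rw [this]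
  exact measurable_fract.min (measurable_const.sub measurable_fract)

/-- two points at distance `D` cannot both be near integers -/
lemma nrm_two (y D δ : ℝ) (h1 : δ ≤ D) (h2 : D ≤ 1 / 4) (hδ : 0 < δ) :
    δ / 2 ≤ nrm y ∨ δ / 2 ≤ nrm (y + D) := by
  by_contra hcon
  push Not at hcon
  obtain ⟨h3, h4⟩ := hcon
  unfold nrm at h3 h4
  have h5 : |((round (y + D) : ℤ) : ℝ) - ((round y : ℤ) : ℝ)| < 1 := by
    rw [abs_lt] at h3 h4 ⊢
    constructor <;> linarith
  have h6 : round (y + D) = round y := by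
    have h7 : |((round (y + D) - round y : ℤ) : ℝ)| < 1 := by push_cast; exact h5
    rw [← Int.cast_abs] at h7
    have h8 : |round (y + D) - round y| < 1 := by exact_mod_cast h7
    have := Int.abs_lt_one_iff.1 h8
    omega
  rw [h6] at h4
  rw [abs_lt] at h3 h4
  linarith

/-- mean value: the derivative moves at a controlled speed -/
lemma incr (f' f'' : ℝ → ℝ) (u0 R : ℝ) (hd' : ∀ u, |u - u0| ≤ R → HasDerivAt f' (f'' u) u)
    (A B : ℝ) (hlo : ∀ u, |u - u0| ≤ R → A ≤ f'' u) (hhi : ∀ u, |u - u0| ≤ R → f'' u ≤ B)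
    {x y : ℝ} (hx : |x - u0| ≤ R) (hy : |y - u0| ≤ R) (hxy : x ≤ y) :
    A * (y - x) ≤ f' y - f' x ∧ f' y - f' x ≤ B * (y - x) := by
  have hin : ∀ z ∈ Set.Icc x y, |z - u0| ≤ R := by
    intro z hz
    rw [abs_le] at hx hy ⊢
    constructor <;> linarith [hz.1, hz.2, hx.1, hx.2, hy.1, hy.2]
  constructor
  · have := (convex_Icc x y).mul_sub_le_image_sub_of_le_deriv (f := f') (C := A)
      (fun z hz => (hd' z (hin z hz)).continuousAt.continuousWithinAt)
      (fun z hz => (hd' z (hin z (interior_subset hz))).differentiableAt.differentiableWithinAt)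
      (fun z hz => by rw [(hd' z (hin z (interior_subset hz))).deriv]; exact hlo z (hin z (interior_subset hz)))
      x (Set.left_mem_Icc.2 hxy) y (Set.right_mem_Icc.2 hxy) hxy
    exact this
  · have := (convex_Icc x y).image_sub_le_mul_sub_of_deriv_le (f := f') (C := B)
      (fun z hz => (hd' z (hin z hz)).continuousAt.continuousWithinAt)
      (fun z hz => (hd' z (hin z (interior_subset hz))).differentiableAt.differentiableWithinAt)
      (fun z hz => by rw [(hd' z (hin z (interior_subset hz))).deriv]; exact hhi z (hin z (interior_subset hz)))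
      x (Set.left_mem_Icc.2 hxy) y (Set.right_mem_Icc.2 hxy) hxy
    exact this

lemma incr_abs (f' f'' : ℝ → ℝ) (u0 R : ℝ) (hd' : ∀ u, |u - u0| ≤ R → HasDerivAt f' (f'' u) u)
    (A B : ℝ) (hA : 0 ≤ A) (hlo : ∀ u, |u - u0| ≤ R → A ≤ f'' u) (hhi : ∀ u, |u - u0| ≤ R → f'' u ≤ B)
    {x y : ℝ} (hx : |x - u0| ≤ R) (hy : |y - u0| ≤ R) : |f' y - f' x| ≤ B * |y - x| := by
  rcases le_total x y with h | h
  · obtain ⟨h1, h2⟩ := incr f' f'' u0 R hd' A B hlo hhi hx hy h
    have h3 : 0 ≤ A * (y - x) := mul_nonneg hA (by linarith)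
    rw [abs_of_nonneg (by linarith), abs_of_nonneg (by linarith : 0 ≤ y - x)]
    exact h2
  · obtain ⟨h1, h2⟩ := incr f' f'' u0 R hd' A B hlo hhi hy hx h
    have h3 : 0 ≤ A * (x - y) := mul_nonneg hA (by linarith)
    rw [abs_sub_comm, abs_of_nonneg (by linarith), abs_sub_comm y x,
      abs_of_nonneg (by linarith : 0 ≤ x - y)]
    exact h2

/-- first order Taylor formula -/
lemma taylor (f f' f'' : ℝ → ℝ) (u0 R : ℝ) (hd : ∀ u, |u - u0| ≤ R → HasDerivAt f (f' u) u)
    (hd' : ∀ u, |u - u0| ≤ R → HasDerivAt f' (f'' u) u)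
    (A B : ℝ) (hA : 0 ≤ A) (hlo : ∀ u, |u - u0| ≤ R → A ≤ f'' u) (hhi : ∀ u, |u - u0| ≤ R → f'' u ≤ B)
    {x y : ℝ} (hx : |x - u0| ≤ R) (hy : |y - u0| ≤ R) :
    |f y - f x - f' x * (y - x)| ≤ B * (y - x) ^ 2 := by
  have hin : ∀ z ∈ Set.uIcc x y, |z - u0| ≤ R := by
    intro z hz
    rw [Set.mem_uIcc] at hz
    rw [abs_le] at hx hy ⊢
    rcases hz with hz | hz <;> constructor <;> linarith [hz.1, hz.2, hx.1, hx.2, hy.1, hy.2]
  have hxy : ∀ z ∈ Set.uIcc x y, |z - x| ≤ |y - x| := by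
    intro z hz
    exact Set.abs_sub_left_of_mem_uIcc hz
  have h := (convex_uIcc x y).norm_image_sub_le_of_norm_hasDerivWithin_le
    (f := fun u => f u - f' x * u) (f' := fun u => f' u - f' x) (C := B * |y - x|)
    (fun z hz => (((hd z (hin z hz)).sub
      (by simpa using (hasDerivAt_id z).const_mul (f' x))).hasDerivWithinAt))
    (fun z hz => by
      rw [Real.norm_eq_abs]
      have hB : 0 ≤ B := hA.trans ((hlo x hx).trans (hhi x hx))
      exact (incr_abs f' f'' u0 R hd' A B hA hlo hhi hx (hin z hz)).trans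
        (mul_le_mul_of_nonneg_left (hxy z hz) hB))
    (Set.left_mem_uIcc) (Set.right_mem_uIcc)
  rw [Real.norm_eq_abs, Real.norm_eq_abs, mul_assoc, abs_mul_abs_self] at h
  have e1 : f y - f' x * y - (f x - f' x * x) = f y - f x - f' x * (y - x) := by ring
  rw [e1] at h
  rw [pow_two]; exact h

end Q83.NP
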