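import Pool.Agent.Q83.NP.C

/-!
# Digit noise: the core estimate, assembled
-/

set_option autoImplicit false
set_option linter.unusedSectionVars false

open MeasureTheory Filter Topology Finset
open scoped ENNReal
open Pool.Agent.H493R3 (ee ee_norm ee_add ee_neg ee_int ee_lip)

namespace Q83.NP

variable {b : ℕ} [NeZero b]

lemma ee_sum {ι : Type*} (s : Finset ι) (g : ι → ℝ) : ee (∑ i ∈ s, g i) = ∏ i ∈ s, ee (g i) := by
  classical
  induction s using Finset.induction_on with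
  | empty => simpa using ee_int 0
  | insert a s ha ih => rw [Finset.sum_insert ha, Finset.prod_insert ha, ee_add, ih]

/-- hypotheses of the core estimate -/
structure Core (b : ℕ) (T : Set ℕ) (k : ℕ) (u0 : ℝ) (f f' f'' : ℝ → ℝ) (A K : ℝ) (M : ℕ)
    (c τ : ℕ → ℕ) (s0 t0 : ℕ) (c0 : ℝ) : Prop where
  fm : Measurable f
  fm' : Measurable f'
  hd : ∀ u, |u - u0| ≤ ((b : ℝ) ^ k)⁻¹ → HasDerivAt f (f' u) u
  hd' : ∀ u, |u - u0| ≤ ((b : ℝ) ^ k)⁻¹ → HasDerivAt f' (f'' u) u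
  hA : 0 < A
  hK : 1 ≤ K
  lo : ∀ u, |u - u0| ≤ ((b : ℝ) ^ k)⁻¹ → A ≤ f'' u
  hi : ∀ u, |u - u0| ≤ ((b : ℝ) ^ k)⁻¹ → f'' u ≤ K * A
  cT : ∀ i < M, c i ∈ T
  τT : ∀ i < M, τ i ∈ T
  ck : ∀ i < M, k ≤ c i
  τk : ∀ i < M, k ≤ τ i
  τinj : ∀ i < M, ∀ j < M, i ≠ j → τ i ≠ τ j
  cτ : ∀ i < M, ∀ j < M, c i ≠ τ j
  cs : ∀ i j, i < j → j < M → c i + s0 ≤ c j
  hs0 : 4 * K * b ≤ (b : ℝ) ^ s0
  τ0 : ∀ i < M, t0 ≤ τ i
  c00 : 0 ≤ c0
  lo0 : ∀ i < M, c0 ≤ A * (((b : ℝ) ^ (c i + 1))⁻¹ * ((b : ℝ) ^ (τ i + 1))⁻¹)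
  hi0 : ∀ i < M, K * A * (((b : ℝ) ^ (c i + 1))⁻¹ * ((b : ℝ) ^ (τ i + 1))⁻¹) ≤ 1 / 4

/-- the set of the places `τ` -/
def St (M : ℕ) (τ : ℕ → ℕ) : Finset ℕ := (range M).image τ

/-- the places `τ` and the later places `c` -/
def Si (M : ℕ) (c τ : ℕ → ℕ) (i : ℕ) : Finset ℕ := (range M).image τ ∪ (Ioo i M).image c

theorem core_two (hb : 2 ≤ b) (d : ℕ → Fin b) (T : Set ℕ) (k : ℕ) (w : ℕ → Fin b)
    (f f' f'' : ℝ → ℝ) (A K : ℝ) (M : ℕ) (c τ : ℕ → ℕ) (s0 t0 : ℕ) (c0 : ℝ)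
    (h : Core b T k (Real.ofDigits w) f f' f'' A K M c τ s0 t0 c0) :
    ∫ ω in cyl k w, ∏ j ∈ range M,
      ‖dir b (f' (Real.ofDigits (zo (St M τ) ω)) * ((b : ℝ) ^ (τ j + 1))⁻¹)‖ ∂(noise d T) ≤
    (1 - c0 ^ 2 / (4 * b ^ 2)) ^ M * (noise d T).real (cyl k w) := by
  classical
  have hn := noise_prob hb d T
  have hb1 : (1 : ℝ) ≤ b := by exact_mod_cast (by omega : 1 ≤ b)
  have hb2 : (2 : ℝ) ≤ b := by exact_mod_cast hb
  have hb0 : (0 : ℝ) < b := by linarith
  rcases Nat.eq_zero_or_pos M with hM0 | hM0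
  · subst hM0; simp
  have hc04 : c0 ≤ 1 / 4 := by
    have h1 := h.lo0 0 hM0
    have h2 := h.hi0 0 hM0
    have h3 : A * (((b : ℝ) ^ (c 0 + 1))⁻¹ * ((b : ℝ) ^ (τ 0 + 1))⁻¹) ≤
        K * A * (((b : ℝ) ^ (c 0 + 1))⁻¹ * ((b : ℝ) ^ (τ 0 + 1))⁻¹) := by
      have : 0 ≤ A * (((b : ℝ) ^ (c 0 + 1))⁻¹ * ((b : ℝ) ^ (τ 0 + 1))⁻¹) :=
        mul_nonneg h.hA.le (by positivity)
      calc A * (((b : ℝ) ^ (c 0 + 1))⁻¹ * ((b : ℝ) ^ (τ 0 + 1))⁻¹)
          = 1 * (A * (((b : ℝ) ^ (c 0 + 1))⁻¹ * ((b : ℝ) ^ (τ 0 + 1))⁻¹)) := by ring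
        _ ≤ K * (A * (((b : ℝ) ^ (c 0 + 1))⁻¹ * ((b : ℝ) ^ (τ 0 + 1))⁻¹)) :=
            mul_le_mul_of_nonneg_right h.hK this
        _ = _ := by ring
    linarith
  have hc0sq : c0 ^ 2 ≤ 1 / 16 := by nlinarith [h.c00]
  obtain ⟨q, hq⟩ : ∃ q : ℕ → ℝ, q = fun i => ((b : ℝ) ^ (c i + 1))⁻¹ * ((b : ℝ) ^ (τ i + 1))⁻¹ :=
    ⟨_, rfl⟩
  obtain ⟨Y, hY⟩ : ∃ Y : ℕ → (ℕ → Fin b) → ℝ, Y = fun i ω =>
    f' (Real.ofDigits (zo (Si M c τ i) ω)) * ((b : ℝ) ^ (τ i + 1))⁻¹ := ⟨_, rfl⟩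
  obtain ⟨g, hg⟩ : ∃ g : ℕ → (ℕ → Fin b) → ℝ, g = fun i ω =>
    if A * q i / 2 ≤ nrm (Y i ω) then 1 - c0 ^ 2 / (4 * b) else 1 := ⟨_, rfl⟩
  have hYm : ∀ i, Measurable (Y i) := by
    intro i
    rw [hY]
    exact (h.fm'.comp (s_meas.comp (zo_meas _))).mul_const _
  have hε0 : 0 ≤ c0 ^ 2 / (4 * b) := by positivity
  have hε1 : c0 ^ 2 / (4 * b) ≤ 1 := by
    rw [div_le_one (by positivity)]; nlinarith
  have hgm : ∀ i, Measurable (g i) := by
    intro i
    rw [hg]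
    exact Measurable.ite (measurableSet_le measurable_const (nrm_meas.comp (hYm i)))
      measurable_const measurable_const
  have hg0 : ∀ i ω, 0 ≤ g i ω := by
    intro i ω
    rw [hg]
    simp only
    split_ifs <;> linarith
  have hg1 : ∀ i ω, g i ω ≤ 1 := by
    intro i ω
    rw [hg]
    simp only
    split_ifs <;> linarith
  have hmemSt : ∀ n ∈ St M τ, k ≤ n := by
    intro n hn
    unfold St at hn
    obtain ⟨j, hj, rfl⟩ := Finset.mem_image.1 hn
    exact h.τk j (Finset.mem_range.1 hj)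
  have hmemSi : ∀ i, ∀ n ∈ Si M c τ i, k ≤ n := by
    intro i n hn
    unfold Si at hn
    rcases Finset.mem_union.1 hn with hn | hn
    · obtain ⟨j, hj, rfl⟩ := Finset.mem_image.1 hn
      exact h.τk j (Finset.mem_range.1 hj)
    · obtain ⟨j, hj, rfl⟩ := Finset.mem_image.1 hn
      exact h.ck j (Finset.mem_Ioo.1 hj).2
  -- comparison with the truncated arguments
  have hcomp : ∀ i < M, ∀ ω ∈ cyl k w,
      ‖dir b (f' (Real.ofDigits (zo (St M τ) ω)) * ((b : ℝ) ^ (τ i + 1))⁻¹)‖ ≤ g i ω := by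
    intro i hi ω hω
    obtain ⟨y, hy⟩ : ∃ y, y = f' (Real.ofDigits (zo (St M τ) ω)) * ((b : ℝ) ^ (τ i + 1))⁻¹ := ⟨_, rfl⟩
    rw [← hy, hg]
    simp only
    split_ifs with hcase
    · have h1 : |Real.ofDigits (zo (Si M c τ i) ω) - Real.ofDigits (zo (St M τ) ω)| ≤
          ((b : ℝ) ^ (c i + s0))⁻¹ := by
        apply Real.abs_ofDigits_sub_ofDigits_le
        intro n hn
        unfold zo St Si
        by_cases hn1 : n ∈ (range M).image τ
        · rw [if_pos (Finset.mem_union_left _ hn1), if_pos hn1]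
        · rw [if_neg hn1, if_neg]
          intro hn2
          rcases Finset.mem_union.1 hn2 with hn2 | hn2
          · exact hn1 hn2
          · obtain ⟨j, hj, hj2⟩ := Finset.mem_image.1 hn2
            have := h.cs i j (Finset.mem_Ioo.1 hj).1 (Finset.mem_Ioo.1 hj).2
            omega
      have h2 := incr_abs f' f'' (Real.ofDigits w) _ h.hd' A (K * A) h.hA.le h.lo h.hi
        (cyl_near w (cyl_zo hmemSt w hω)) (cyl_near w (cyl_zo (hmemSi i) w hω))
      have h3 : |Y i ω - y| ≤ A * q i / 4 := by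
        have e1 : Y i ω - y = (f' (Real.ofDigits (zo (Si M c τ i) ω)) -
            f' (Real.ofDigits (zo (St M τ) ω))) * ((b : ℝ) ^ (τ i + 1))⁻¹ := by
          rw [hY, hy]; ring
        rw [e1, abs_mul, abs_of_nonneg (by positivity : (0 : ℝ) ≤ ((b : ℝ) ^ (τ i + 1))⁻¹)]
        have hKA : 0 ≤ K * A := mul_nonneg (by linarith [h.hK]) h.hA.le
        calc |f' (Real.ofDigits (zo (Si M c τ i) ω)) - f' (Real.ofDigits (zo (St M τ) ω))| *
              ((b : ℝ) ^ (τ i + 1))⁻¹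
            ≤ (K * A * ((b : ℝ) ^ (c i + s0))⁻¹) * ((b : ℝ) ^ (τ i + 1))⁻¹ := by
              refine mul_le_mul_of_nonneg_right (h2.trans ?_) (by positivity)
              exact mul_le_mul_of_nonneg_left h1 hKA
          _ = (4 * K * b) * ((b : ℝ) ^ s0)⁻¹ * (A * q i / 4) := by
              rw [hq]
              simp only
              rw [pow_add, pow_succ]
              field_simp
              ring
          _ ≤ 1 * (A * q i / 4) := by
              refine mul_le_mul_of_nonneg_right ?_ ?_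
              · rw [← div_eq_mul_inv, div_le_one (by positivity)]
                exact h.hs0
              · rw [hq]
                have := h.hA.le
                positivity
          _ = _ := one_mul _
      have h4 : A * q i / 4 ≤ nrm y := by
        have h5 := nrm_add_le y (Y i ω - y)
        rw [add_sub_cancel] at h5
        linarith
      refine (dir_nrm hb y).trans ?_
      have h6 : c0 / 4 ≤ nrm y := by
        have := h.lo0 i hi
        have e2 : A * q i = A * (((b : ℝ) ^ (c i + 1))⁻¹ * ((b : ℝ) ^ (τ i + 1))⁻¹) := by rw [hq]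
        rw [← e2] at this
        linarith
      have h7 : (c0 / 4) ^ 2 ≤ nrm y ^ 2 := pow_le_pow_left₀ (by linarith [h.c00]) h6 2
      have h8 : c0 ^ 2 / (4 * b) = 4 / b * (c0 / 4) ^ 2 := by field_simp; try ring
      rw [h8]
      have h9 : 4 / (b : ℝ) * (c0 / 4) ^ 2 ≤ 4 / b * nrm y ^ 2 :=
        mul_le_mul_of_nonneg_left h7 (by positivity)
      linarith
    · exact dir_le hb y
  have hstep1 : ∫ ω in cyl k w, ∏ j ∈ range M,
      ‖dir b (f' (Real.ofDigits (zo (St M τ) ω)) * ((b : ℝ) ^ (τ j + 1))⁻¹)‖ ∂(noise d T) ≤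
      ∫ ω in cyl k w, ∏ j ∈ range M, g j ω ∂(noise d T) := by
    have hm1 : Measurable fun ω : ℕ → Fin b => ∏ j ∈ range M,
        ‖dir b (f' (Real.ofDigits (zo (St M τ) ω)) * ((b : ℝ) ^ (τ j + 1))⁻¹)‖ :=
      Finset.measurable_fun_prod _ fun j _ =>
        (dir_cont.measurable.comp ((h.fm'.comp (s_meas.comp (zo_meas _))).mul_const _)).norm
    have hm2 : Measurable fun ω : ℕ → Fin b => ∏ j ∈ range M, g j ω :=
      Finset.measurable_fun_prod _ fun j _ => hgm j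
    refine setIntegral_mono_on ?_ ?_ (cyl_meas k w) fun ω hω => ?_
    · refine (Integrable.of_bound hm1.aestronglyMeasurable 1
        (Eventually.of_forall fun ω => ?_)).integrableOn
      rw [Real.norm_eq_abs, abs_of_nonneg (Finset.prod_nonneg fun _ _ => norm_nonneg _)]
      exact Finset.prod_le_one (fun _ _ => norm_nonneg _) fun _ _ => dir_le hb _
    · refine (Integrable.of_bound hm2.aestronglyMeasurable 1
        (Eventually.of_forall fun ω => ?_)).integrableOn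
      rw [Real.norm_eq_abs, abs_of_nonneg (Finset.prod_nonneg fun _ _ => hg0 _ _)]
      exact Finset.prod_le_one (fun _ _ => hg0 _ _) fun _ _ => hg1 _ _
    · exact Finset.prod_le_prod (fun _ _ => norm_nonneg _)
        fun j hj => hcomp j (Finset.mem_range.1 hj) ω hω
  refine hstep1.trans ?_
  refine prod_bound hb d T (cyl k w) (cyl_meas k w) (c0 ^ 2 / (4 * b ^ 2)) ?_ c g hgm hg0 hg1 M
    h.cT (fun i hi ω a => cyl_update (h.ck i hi) w ω a) ?_ ?_
  · rw [div_le_one (by positivity)]; nlinarith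
  · intro i j hij hjM ω a
    have : zo (Si M c τ i) (Function.update ω (c j) a) = zo (Si M c τ i) ω := by
      apply zo_update
      unfold Si
      exact Finset.mem_union_right _ (Finset.mem_image_of_mem _ (Finset.mem_Ioo.2 ⟨hij, hjM⟩))
    rw [hg, hY]
    simp only [this]
  · intro i hi ω hω
    -- one of the digits `0, 1` is good
    have hcS : c i ∉ Si M c τ i := by
      unfold Si
      intro hmem
      rcases Finset.mem_union.1 hmem with hm | hm
      · obtain ⟨j, hj, hj2⟩ := Finset.mem_image.1 hm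
        exact h.cτ i hi j (Finset.mem_range.1 hj) hj2.symm
      · obtain ⟨j, hj, hj2⟩ := Finset.mem_image.1 hm
        have h1 := h.cs i j (Finset.mem_Ioo.1 hj).1 (Finset.mem_Ioo.1 hj).2
        have h2 : s0 = 0 := by omega
        have h3 := h.hs0
        rw [h2, pow_zero] at h3
        nlinarith [h.hK]
    obtain ⟨a1, ha1⟩ : ∃ a1 : Fin b, (a1 : ℕ) = 1 := ⟨⟨1, by omega⟩, rfl⟩
    obtain ⟨a0, ha0⟩ : ∃ a0 : Fin b, (a0 : ℕ) = 0 := ⟨⟨0, by omega⟩, rfl⟩
    have hval : ∀ a : Fin b, Real.ofDigits (zo (Si M c τ i) (Function.update ω (c i) a)) =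
        Real.ofDigits (zo {c i} (zo (Si M c τ i) ω)) + ((a : ℕ) : ℝ) * ((b : ℝ) ^ (c i + 1))⁻¹ := by
      intro a
      rw [zo_update_notMem hcS, s_upd]
    have hin : ∀ a : Fin b, |Real.ofDigits (zo (Si M c τ i) (Function.update ω (c i) a)) -
        Real.ofDigits w| ≤ ((b : ℝ) ^ k)⁻¹ := fun a =>
      cyl_near w (cyl_zo (hmemSi i) w ((cyl_update (h.ck i hi) w ω a).2 hω))
    have hgood : ∃ a : Fin b, g i (Function.update ω (c i) a) = 1 - c0 ^ 2 / (4 * b) := by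
      obtain ⟨x0, hx0⟩ : ∃ x, x = Real.ofDigits (zo (Si M c τ i) (Function.update ω (c i) a0)) := ⟨_, rfl⟩
      obtain ⟨x1, hx1⟩ : ∃ x, x = Real.ofDigits (zo (Si M c τ i) (Function.update ω (c i) a1)) := ⟨_, rfl⟩
      have hdiff : x1 - x0 = ((b : ℝ) ^ (c i + 1))⁻¹ := by
        rw [hx1, hx0, hval, hval, ha1, ha0]; push_cast; ring
      have hle : x0 ≤ x1 := by
        have : (0 : ℝ) ≤ ((b : ℝ) ^ (c i + 1))⁻¹ := by positivity
        linarith
      obtain ⟨h1, h2⟩ := incr f' f'' (Real.ofDigits w) _ h.hd' A (K * A) h.lo h.hi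
        (by rw [hx0]; exact hin a0) (by rw [hx1]; exact hin a1) hle
      rw [hdiff] at h1 h2
      obtain ⟨l, hl⟩ : ∃ l, l = ((b : ℝ) ^ (τ i + 1))⁻¹ := ⟨_, rfl⟩
      have hl0 : 0 < l := by rw [hl]; positivity
      have hq0 : 0 < q i := by rw [hq]; positivity
      have h3 := nrm_two (f' x0 * l) ((f' x1 - f' x0) * l) (A * q i)
        (by
          calc A * q i = (A * ((b : ℝ) ^ (c i + 1))⁻¹) * l := by rw [hq, hl]; ring
            _ ≤ _ := mul_le_mul_of_nonneg_right h1 hl0.le)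
        (by
          calc (f' x1 - f' x0) * l ≤ (K * A * ((b : ℝ) ^ (c i + 1))⁻¹) * l :=
                mul_le_mul_of_nonneg_right h2 hl0.le
            _ = K * A * (((b : ℝ) ^ (c i + 1))⁻¹ * ((b : ℝ) ^ (τ i + 1))⁻¹) := by rw [hl]; ring
            _ ≤ 1 / 4 := h.hi0 i hi)
        (mul_pos h.hA hq0)
      have e3 : f' x0 * l + (f' x1 - f' x0) * l = f' x1 * l := by ring
      rw [e3] at h3
      rcases h3 with h3 | h3
      · refine ⟨a0, ?_⟩
        have h4 : A * q i / 2 ≤ nrm (Y i (Function.update ω (c i) a0)) := by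
          rw [hY]
          simp only
          rw [← hx0, ← hl]
          exact h3
        rw [hg]
        exact if_pos h4
      · refine ⟨a1, ?_⟩
        have h4 : A * q i / 2 ≤ nrm (Y i (Function.update ω (c i) a1)) := by
          rw [hY]
          simp only
          rw [← hx1, ← hl]
          exact h3
        rw [hg]
        exact if_pos h4
    obtain ⟨a, ha⟩ := hgood
    have hsum : ∑ a' : Fin b, g i (Function.update ω (c i) a') ≤ b - c0 ^ 2 / (4 * b) := by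
      rw [← Finset.add_sum_erase _ _ (Finset.mem_univ a), ha]
      have : ∑ x ∈ Finset.univ.erase a, g i (Function.update ω (c i) x) ≤
          ∑ _x ∈ Finset.univ.erase a, (1 : ℝ) := Finset.sum_le_sum fun x _ => hg1 _ _
      rw [Finset.sum_const, Finset.card_erase_of_mem (Finset.mem_univ a), Finset.card_univ,
        Fintype.card_fin, nsmul_eq_mul, mul_one, Nat.cast_sub (by omega)] at this
      push_cast at this
      linarith
    rw [inv_mul_le_iff₀ hb0]
    refine hsum.trans (le_of_eq ?_)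
    field_simp

/-- **The core estimate.** -/
theorem core (hb : 2 ≤ b) (d : ℕ → Fin b) (T : Set ℕ) (k : ℕ) (w : ℕ → Fin b)
    (f f' f'' : ℝ → ℝ) (A K : ℝ) (M : ℕ) (c τ : ℕ → ℕ) (s0 t0 : ℕ) (c0 : ℝ)
    (h : Core b T k (Real.ofDigits w) f f' f'' A K M c τ s0 t0 c0) :
    ‖∫ ω in cyl k w, ee (f (Real.ofDigits ω)) ∂(noise d T)‖ ≤
    ((1 - c0 ^ 2 / (4 * b ^ 2)) ^ M + 7 * (K * A) * (((b : ℝ) ^ t0)⁻¹) ^ 2) *
      (noise d T).real (cyl k w) := by
  classical
  have hn := noise_prob hb d T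
  have hb0 : (0 : ℝ) < b := by exact_mod_cast (by omega : 0 < b)
  have hmemSt : ∀ n ∈ St M τ, k ≤ n := by
    intro n hn
    unfold St at hn
    obtain ⟨j, hj, rfl⟩ := Finset.mem_image.1 hn
    exact h.τk j (Finset.mem_range.1 hj)
  obtain ⟨st, hst⟩ : ∃ st : (ℕ → Fin b) → ℝ, st = fun ω => Real.ofDigits (zo (St M τ) ω) := ⟨_, rfl⟩
  have hstm : Measurable st := by rw [hst]; exact s_meas.comp (zo_meas _)
  have hsti : ∀ i < M, ∀ ω a, st (Function.update ω (τ i) a) = st ω := by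
    intro i hi ω a
    rw [hst]
    simp only
    rw [zo_update]
    unfold St
    exact Finset.mem_image_of_mem _ (Finset.mem_range.2 hi)
  have hsum : ∀ ω, Real.ofDigits ω - st ω =
      ∑ j ∈ range M, ((ω (τ j) : ℕ) : ℝ) * ((b : ℝ) ^ (τ j + 1))⁻¹ := by
    intro ω
    rw [hst]
    simp only
    rw [s_zo]
    unfold St
    rw [Finset.sum_image]
    intro i hi j hj hij
    by_contra hne
    exact h.τinj i (Finset.mem_range.1 hi) j (Finset.mem_range.1 hj) hne hij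
  obtain ⟨G, hG⟩ : ∃ G : (ℕ → Fin b) → ℂ, G = fun ω => ee (f (st ω)) *
    ∏ j ∈ range M, ee (((ω (τ j) : ℕ) : ℝ) * (f' (st ω) * ((b : ℝ) ^ (τ j + 1))⁻¹)) := ⟨_, rfl⟩
  have hGeq : ∀ ω, G ω = ee (f (st ω) + f' (st ω) * (Real.ofDigits ω - st ω)) := by
    intro ω
    rw [hG]
    simp only
    rw [← ee_sum, ← ee_add]
    congr 2
    rw [hsum, Finset.mul_sum]
    refine Finset.sum_congr rfl fun j _ => ?_
    ring
  have hdm : ∀ t, Measurable fun ω : ℕ → Fin b => ((ω t : ℕ) : ℝ) := fun t =>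
    (measurable_from_top (f := fun a : Fin b => ((a : ℕ) : ℝ))).comp (measurable_pi_apply t)
  have hGm : Measurable G := by
    rw [hG]
    refine (ee_cont.measurable.comp (h.fm.comp hstm)).mul
      (Finset.measurable_fun_prod _ fun j _ => ee_cont.measurable.comp ?_)
    exact (hdm _).mul ((h.fm'.comp hstm).mul_const _)
  have hGn : ∀ ω, ‖G ω‖ ≤ 1 := fun ω => by rw [hGeq, ee_norm]
  have hfm : Measurable fun ω : ℕ → Fin b => ee (f (Real.ofDigits ω)) :=
    ee_cont.measurable.comp (h.fm.comp s_meas)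
  have h1 : ‖∫ ω in cyl k w, G ω ∂(noise d T)‖ ≤
      (1 - c0 ^ 2 / (4 * b ^ 2)) ^ M * (noise d T).real (cyl k w) := by
    have h2 := exp_avg_norm hb d T (cyl k w) (cyl_meas k w) τ
      (fun j => ((b : ℝ) ^ (τ j + 1))⁻¹) (fun ω => f' (st ω)) (h.fm'.comp hstm) M h.τT h.τinj
      (fun i hi ω a => cyl_update (h.τk i hi) w ω a)
      (fun i hi ω a => by rw [hsti i hi]) (fun ω => ee (f (st ω)))
      (ee_cont.measurable.comp (h.fm.comp hstm)) (fun ω => (ee_norm _).le)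
      (fun i hi ω a => by rw [hsti i hi])
    have h3 := core_two hb d T k w f f' f'' A K M c τ s0 t0 c0 h
    rw [hG]
    refine h2.trans ?_
    rw [hst]
    exact h3
  have hdiff : ∀ ω ∈ cyl k w, ‖ee (f (Real.ofDigits ω)) - G ω‖ ≤
      7 * (K * A) * (((b : ℝ) ^ t0)⁻¹) ^ 2 := by
    intro ω hω
    rw [hGeq]
    refine (ee_lip _ _).trans ?_
    have h2 := taylor f f' f'' (Real.ofDigits w) _ h.hd h.hd' A (K * A) h.hA.le h.lo h.hi
      (x := st ω) (y := Real.ofDigits ω)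
      (by rw [hst]; exact cyl_near w (cyl_zo hmemSt w hω)) (cyl_near w hω)
    have h3 : |Real.ofDigits ω - st ω| ≤ ((b : ℝ) ^ t0)⁻¹ := by
      rw [hst]
      apply Real.abs_ofDigits_sub_ofDigits_le
      intro n hn
      unfold zo
      rw [if_neg]
      unfold St
      intro hmem
      obtain ⟨j, hj, hj2⟩ := Finset.mem_image.1 hmem
      have := h.τ0 j (Finset.mem_range.1 hj)
      omega
    have h4 : (Real.ofDigits ω - st ω) ^ 2 ≤ (((b : ℝ) ^ t0)⁻¹) ^ 2 := by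
      rw [← sq_abs]
      exact pow_le_pow_left₀ (abs_nonneg _) h3 2
    have hKA : 0 ≤ K * A := mul_nonneg (by linarith [h.hK]) h.hA.le
    have e1 : f (Real.ofDigits ω) - (f (st ω) + f' (st ω) * (Real.ofDigits ω - st ω)) =
        f (Real.ofDigits ω) - f (st ω) - f' (st ω) * (Real.ofDigits ω - st ω) := by ring
    rw [e1]
    calc 7 * |f (Real.ofDigits ω) - f (st ω) - f' (st ω) * (Real.ofDigits ω - st ω)|
        ≤ 7 * (K * A * (((b : ℝ) ^ t0)⁻¹) ^ 2) := by
          refine mul_le_mul_of_nonneg_left (h2.trans ?_) (by norm_num)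
          exact mul_le_mul_of_nonneg_left h4 hKA
      _ = _ := by ring
  have hint1 : Integrable (fun ω => ee (f (Real.ofDigits ω))) ((noise d T).restrict (cyl k w)) :=
    (Integrable.of_bound hfm.aestronglyMeasurable 1
      (Eventually.of_forall fun ω => (ee_norm _).le)).integrableOn
  have hint2 : Integrable G ((noise d T).restrict (cyl k w)) :=
    (Integrable.of_bound hGm.aestronglyMeasurable 1 (Eventually.of_forall hGn)).integrableOn
  have e2 : ∫ ω in cyl k w, ee (f (Real.ofDigits ω)) ∂(noise d T) =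
      ∫ ω in cyl k w, G ω ∂(noise d T) +
      ∫ ω in cyl k w, (ee (f (Real.ofDigits ω)) - G ω) ∂(noise d T) := by
    rw [integral_sub hint1 hint2]; ring
  rw [e2, add_mul]
  refine (norm_add_le _ _).trans (add_le_add h1 ?_)
  refine norm_setIntegral_le_of_norm_le_const (measure_lt_top _ _) hdiff

end Q83.NP
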