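import Pool.Agent.Q83.NP.D

/-!
# Digit noise: choice of the places, cylinders
-/

set_option autoImplicit false
set_option linter.unusedSectionVars false

open MeasureTheory Filter Topology Finset
open scoped ENNReal
open Pool.Agent.H493R3 (ee ee_norm ee_add ee_neg ee_int ee_lip)

namespace Q83.NP

variable {b : ℕ} [NeZero b]

/-- **The estimate on one cylinder.** -/
theorem est (hb : 2 ≤ b) (d : ℕ → Fin b) (T : Set ℕ) (k : ℕ) (w : ℕ → Fin b)
    (f f' f'' : ℝ → ℝ) (A K : ℝ) (fm : Measurable f) (fm' : Measurable f')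
    (hd : ∀ u, |u - Real.ofDigits w| ≤ ((b : ℝ) ^ k)⁻¹ → HasDerivAt f (f' u) u)
    (hd' : ∀ u, |u - Real.ofDigits w| ≤ ((b : ℝ) ^ k)⁻¹ → HasDerivAt f' (f'' u) u)
    (hA : 0 < A) (hK : 1 ≤ K)
    (lo : ∀ u, |u - Real.ofDigits w| ≤ ((b : ℝ) ^ k)⁻¹ → A ≤ f'' u)
    (hi : ∀ u, |u - Real.ofDigits w| ≤ ((b : ℝ) ^ k)⁻¹ → f'' u ≤ K * A)
    (s0 : ℕ) (hs0 : 4 * K * b ≤ (b : ℝ) ^ s0) (L Z M : ℕ)
    (hgap : ∀ x, k ≤ x → x ≤ Z → ∃ t ∈ T, x ≤ t ∧ t < x + L)
    (hZ1 : 4 * K * A ≤ (b : ℝ) ^ Z) (hZ2 : (b : ℝ) ^ Z ≤ 4 * K * A * b) (hZ8 : 8 ≤ Z)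
    (hM : 4 * (k + M * (s0 + 2 * L)) ≤ Z) :
    ‖∫ ω in cyl k w, ee (f (Real.ofDigits ω)) ∂(noise d T)‖ ≤
      ((1 - 1 / (64 * K ^ 2 * (b : ℝ) ^ (2 * L + 4))) ^ M + 2 * (b : ℝ) ^ 4 * ((b : ℝ) ^ (Z / 2))⁻¹) *
      (noise d T).real (cyl k w) := by
  have hb0 : (0 : ℝ) < b := by exact_mod_cast (by omega : 0 < b)
  have hb1 : (1 : ℝ) ≤ b := by exact_mod_cast (by omega : 1 ≤ b)
  have hKpos : 0 < K := by linarith
  obtain ⟨D, hD⟩ : ∃ D, D = s0 + 2 * L := ⟨_, rfl⟩
  have hv : ∀ i < M, k + i * D + D ≤ k + M * D := by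
    intro i hi
    have : (i + 1) * D ≤ M * D := Nat.mul_le_mul_right _ hi
    rw [add_mul, one_mul] at this
    omega
  have hMD : 4 * (k + M * D) ≤ Z := by rw [hD]; exact hM
  -- the places `c`
  have hc : ∀ i, ∃ t, i < M → t ∈ T ∧ k + i * D ≤ t ∧ t < k + i * D + L := by
    intro i
    by_cases hiM : i < M
    · have := hv i hiM
      obtain ⟨t, h1, h2, h3⟩ := hgap (k + i * D) (by omega) (by omega)
      exact ⟨t, fun _ => ⟨h1, h2, h3⟩⟩
    · exact ⟨0, fun h => absurd h hiM⟩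
  choose c hc using hc
  have hcZ : ∀ i < M, 4 * c i + 4 ≤ Z ∨ c i + 1 ≤ k + M * D := by
    intro i hi
    right
    have h1 := hv i hi
    have h2 := hc i hi
    omega
  have hc4 : ∀ i < M, 4 * (c i + 1) ≤ Z := by
    intro i hi
    have h1 := hv i hi
    have h2 := hc i hi
    omega
  -- the places `τ`
  have hτ : ∀ i, ∃ t, i < M → t ∈ T ∧ Z - 2 - c i ≤ t ∧ t < Z - 2 - c i + L := by
    intro i
    by_cases hiM : i < M
    · have h1 := hc4 i hiM
      have h2 := hv i hiM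
      obtain ⟨t, h1, h2, h3⟩ := hgap (Z - 2 - c i) (by omega) (by omega)
      exact ⟨t, fun _ => ⟨h1, h2, h3⟩⟩
    · exact ⟨0, fun h => absurd h hiM⟩
  choose τ hτ using hτ
  have hcs : ∀ i j, i < j → j < M → c i + s0 + L + 1 ≤ c j := by
    intro i j hij hj
    have h1 := hc i (by omega)
    have h2 := hc j hj
    have h3 : (i + 1) * D ≤ j * D := Nat.mul_le_mul_right _ hij
    rw [add_mul, one_mul] at h3
    omega
  have hττ : ∀ i j, i < j → j < M → τ j < τ i := by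
    intro i j hij hj
    have h1 := hcs i j hij hj
    have h2 := hτ i (by omega)
    have h3 := hτ j hj
    have h4 := hc4 j hj
    omega
  have hcore : Core b T k (Real.ofDigits w) f f' f'' A K M c τ s0 (Z - 2 - (k + M * D))
      (1 / (4 * K * (b : ℝ) ^ (L + 1))) := by
    refine ⟨fm, fm', hd, hd', hA, hK, lo, hi, fun i hi => (hc i hi).1, fun i hi => (hτ i hi).1,
      fun i hi => ?_, fun i hi => ?_, fun i hi j hj hij => ?_, fun i hi j hj => ?_,
      fun i j hij hj => ?_, hs0, fun i hi => ?_, by positivity, fun i hi => ?_, fun i hi => ?_⟩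
    · have := hc i hi; omega
    · have h1 := hτ i hi
      have h2 := hc4 i hi
      omega
    · rcases lt_or_gt_of_ne hij with h | h
      · exact (hττ i j h hj).ne'
      · exact (hττ j i h hi).ne
    · have h1 := hτ j hj
      have h2 := hc4 i hi
      have h3 := hc4 j hj
      omega
    · have := hcs i j hij hj; omega
    · have h1 := hτ i hi
      have h2 := hc i hi
      have h3 := hv i hi
      omega
    · -- lower bound of the size
      have h1 : c i + 1 + (τ i + 1) ≤ Z + L := by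
        have h1 := hτ i hi
        have h2 := hc4 i hi
        omega
      have h2 : ((b : ℝ) ^ (Z + L))⁻¹ ≤ ((b : ℝ) ^ (c i + 1))⁻¹ * ((b : ℝ) ^ (τ i + 1))⁻¹ := by
        rw [← mul_inv, ← pow_add]
        exact inv_anti₀ (by positivity) (pow_le_pow_right₀ hb1 h1)
      refine le_trans ?_ (mul_le_mul_of_nonneg_left h2 hA.le)
      rw [← div_eq_mul_inv, div_le_div_iff₀ (by positivity) (by positivity), pow_add]
      calc 1 * ((b : ℝ) ^ Z * (b : ℝ) ^ L) ≤ 1 * ((4 * K * A * b) * (b : ℝ) ^ L) := by gcongr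
        _ = A * (4 * K * (b : ℝ) ^ (L + 1)) := by rw [pow_succ]; ring
    · have h1 : Z ≤ c i + 1 + (τ i + 1) := by
        have h1 := hτ i hi
        have h2 := hc4 i hi
        omega
      rw [← mul_inv, ← pow_add, ← div_eq_mul_inv, div_le_iff₀ (by positivity)]
      have h2 : (b : ℝ) ^ Z ≤ (b : ℝ) ^ (c i + 1 + (τ i + 1)) := pow_le_pow_right₀ hb1 h1
      linarith
  have h := core hb d T k w f f' f'' A K M c τ s0 _ _ hcore
  refine h.trans (mul_le_mul_of_nonneg_right ?_ measureReal_nonneg)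
  refine add_le_add (le_of_eq ?_) ?_
  · congr 2
    rw [pow_add (b : ℝ) (2 * L) 4, pow_mul' (b : ℝ) 2 L, pow_succ (b : ℝ) L]
    field_simp
    ring
  · have h2 : Z + Z / 2 ≤ 2 * (Z - 2 - (k + M * D)) + 4 := by omega
    obtain ⟨t0, ht0⟩ : ∃ t0, t0 = Z - 2 - (k + M * D) := ⟨_, rfl⟩
    rw [← ht0] at h2 ⊢
    have h3 : (b : ℝ) ^ Z * (b : ℝ) ^ (Z / 2) ≤ ((b : ℝ) ^ t0) ^ 2 * (b : ℝ) ^ 4 := by
      rw [← pow_add, ← pow_mul, ← pow_add]
      exact pow_le_pow_right₀ hb1 (by omega)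
    have h4 : K * A ≤ (b : ℝ) ^ Z / 4 := by linarith
    rw [inv_pow, ← div_eq_mul_inv, ← div_eq_mul_inv, div_le_div_iff₀ (by positivity) (by positivity)]
    calc 7 * (K * A) * (b : ℝ) ^ (Z / 2) ≤ 7 * ((b : ℝ) ^ Z / 4) * (b : ℝ) ^ (Z / 2) := by gcongr
      _ = 7 / 4 * ((b : ℝ) ^ Z * (b : ℝ) ^ (Z / 2)) := by ring
      _ ≤ 7 / 4 * (((b : ℝ) ^ t0) ^ 2 * (b : ℝ) ^ 4) := by gcongr
      _ ≤ 2 * (((b : ℝ) ^ t0) ^ 2 * (b : ℝ) ^ 4) := by
          have : 0 ≤ ((b : ℝ) ^ t0) ^ 2 * (b : ℝ) ^ 4 := by positivity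
          linarith
      _ = _ := by ring

lemma cyl_split (k : ℕ) (w : ℕ → Fin b) :
    cyl k w = ⋃ a : Fin b, cyl (k + 1) (Function.update w k a) := by
  ext ω
  simp only [cyl, Set.mem_ofPred_eq, Set.mem_iUnion]
  constructor
  · intro h
    refine ⟨ω k, fun i hi => ?_⟩
    by_cases hik : i = k
    · subst hik; rw [Function.update_self]
    · rw [Function.update_of_ne hik]; exact h i (by omega)
  · rintro ⟨a, h⟩ i hi
    have := h i (by omega)
    rwa [Function.update_of_ne (by omega)] at this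

lemma cyl_disj (k : ℕ) (w : ℕ → Fin b) :
    Pairwise (Function.onFun Disjoint fun a : Fin b => cyl (k + 1) (Function.update w k a)) := by
  intro a a' haa
  rw [Function.onFun, Set.disjoint_left]
  intro ω h1 h2
  have e1 := h1 k (by omega)
  have e2 := h2 k (by omega)
  rw [Function.update_self] at e1 e2
  exact haa (e1.symm.trans e2)

/-- bounds on small cylinders give bounds on large ones -/
theorem refine_cyl (hb : 2 ≤ b) (d : ℕ → Fin b) (T : Set ℕ) (F : (ℕ → Fin b) → ℂ) (hF : Measurable F)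
    (hFb : ∀ ω, ‖F ω‖ ≤ 1) (B : ℝ) (n : ℕ) : ∀ (k : ℕ) (w : ℕ → Fin b),
    (∀ w' ∈ cyl k w, ‖∫ ω in cyl (k + n) w', F ω ∂(noise d T)‖ ≤ B * (noise d T).real (cyl (k + n) w')) →
    ‖∫ ω in cyl k w, F ω ∂(noise d T)‖ ≤ B * (noise d T).real (cyl k w) := by
  have hn := noise_prob hb d T
  induction n with
  | zero =>
    intro k w h
    exact h w fun i _ => rfl
  | succ n ih =>
    intro k w h
    have hstep : ∀ a : Fin b, ‖∫ ω in cyl (k + 1) (Function.update w k a), F ω ∂(noise d T)‖ ≤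
        B * (noise d T).real (cyl (k + 1) (Function.update w k a)) := by
      intro a
      refine ih (k + 1) _ fun w' hw' => ?_
      have hw'' : w' ∈ cyl k w := by
        rw [cyl_split]
        exact Set.mem_iUnion.2 ⟨a, hw'⟩
      have := h w' hw''
      rwa [show k + (n + 1) = k + 1 + n by ring] at this
    have hint : Integrable F (noise d T) :=
      Integrable.of_bound hF.aestronglyMeasurable 1 (Eventually.of_forall hFb)
    rw [cyl_split, integral_iUnion (fun a => cyl_meas _ _) (cyl_disj k w) hint.integrableOn,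
      tsum_fintype]
    have hreal : (noise d T).real (⋃ a : Fin b, cyl (k + 1) (Function.update w k a)) =
        ∑ a : Fin b, (noise d T).real (cyl (k + 1) (Function.update w k a)) := by
      rw [measureReal_def, measure_iUnion (cyl_disj k w) fun a => cyl_meas _ _, tsum_fintype,
        ENNReal.toReal_sum fun a _ => measure_ne_top _ _]
      rfl
    rw [hreal, Finset.mul_sum]
    exact (norm_sum_le _ _).trans (Finset.sum_le_sum fun a _ => hstep a)

end Q83.NP
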