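import Pool.Agent.Q83.NP.E

/-!
# Digit noise: the parameters
-/

set_option autoImplicit false
set_option linter.unusedSectionVars false

open MeasureTheory Filter Topology Finset
open scoped ENNReal

namespace Q83.NP

lemma exp_small (C δ : ℝ) (hC : 0 < C) (hδ : 0 < δ) :
    ∀ᶠ Z : ℕ in atTop, Real.exp (-(C * (Z : ℝ) ^ δ)) ≤ 1 / 2 * ((Z : ℝ) ^ 4)⁻¹ := by
  have h1 := tendsto_rpow_mul_exp_neg_mul_atTop_nhds_zero (4 / δ) C hC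
  have h2 : Tendsto (fun Z : ℕ => (Z : ℝ) ^ δ) atTop atTop :=
    (tendsto_rpow_atTop hδ).comp tendsto_natCast_atTop_atTop
  have h3 := (h1.comp h2).eventually (gt_mem_nhds (by norm_num : (0 : ℝ) < 1 / 2))
  filter_upwards [h3, eventually_ge_atTop 1] with Z hZ hZ1
  have hZ0 : (0 : ℝ) < Z := by exact_mod_cast hZ1
  simp only [Function.comp] at hZ
  rw [← Real.rpow_mul hZ0.le, mul_div_cancel₀ _ hδ.ne',
    show (4 : ℝ) = ((4 : ℕ) : ℝ) by norm_num, Real.rpow_natCast] at hZ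
  rw [← neg_mul, ← div_eq_mul_inv, le_div_iff₀ (by positivity)]
  linarith

lemma pow_small (b : ℕ) (hb : 2 ≤ b) (C : ℝ) :
    ∀ᶠ Z : ℕ in atTop, C * ((b : ℝ) ^ (Z / 2))⁻¹ ≤ 1 / 2 * ((Z : ℝ) ^ 4)⁻¹ := by
  have h1 := tendsto_pow_const_div_const_pow_of_one_lt 4 (by norm_num : (1 : ℝ) < 2)
  have h2 := h1.const_mul ((|C| + 1) * 162)
  rw [mul_zero] at h2
  have h3 : Tendsto (fun Z : ℕ => Z / 2) atTop atTop := Nat.tendsto_div_const_atTop (by norm_num)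
  have h4 := (h2.comp h3).eventually (gt_mem_nhds (zero_lt_one))
  filter_upwards [h4, eventually_ge_atTop 2] with Z hZ hZ2
  simp only [Function.comp] at hZ
  have hm : Z ≤ 3 * (Z / 2) := by omega
  have hmR : (Z : ℝ) ≤ 3 * ((Z / 2 : ℕ) : ℝ) := by exact_mod_cast hm
  have hZ0 : (0 : ℝ) < Z := by exact_mod_cast (by omega : 0 < Z)
  obtain ⟨m, hmd⟩ : ∃ m, m = Z / 2 := ⟨_, rfl⟩
  rw [← hmd] at hZ hmR ⊢
  have h5 : (Z : ℝ) ^ 4 ≤ 81 * (m : ℝ) ^ 4 := by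
    calc (Z : ℝ) ^ 4 ≤ (3 * (m : ℝ)) ^ 4 := pow_le_pow_left₀ hZ0.le hmR 4
      _ = _ := by ring
  rw [← mul_div_assoc, div_lt_one (by positivity)] at hZ
  have h6 : (2 : ℝ) ^ m ≤ (b : ℝ) ^ m := pow_le_pow_left₀ (by norm_num) (by exact_mod_cast hb) m
  rw [← div_eq_mul_inv, ← div_eq_mul_inv, div_le_div_iff₀ (by positivity) (by positivity)]
  have h7 : C * (Z : ℝ) ^ 4 ≤ (|C| + 1) * (81 * (m : ℝ) ^ 4) :=
    mul_le_mul (by linarith [le_abs_self C]) h5 (by positivity) (by positivity)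
  nlinarith

/-- **Choice of the parameters.** -/
theorem asym (b : ℕ) (hb : 2 ≤ b) (K : ℝ) (hK : 1 ≤ K) (s0 : ℕ) (c : ℝ) (hc0 : 0 ≤ c)
    (hc : c < 1 / 2) :
    ∀ᶠ Z : ℕ in atTop, ∃ L M : ℕ, (Z : ℝ) ^ c < (b : ℝ) ^ L ∧
      (∀ k, 8 * k ≤ Z → 4 * (k + M * (s0 + 2 * L)) ≤ Z) ∧
      (1 - 1 / (64 * K ^ 2 * (b : ℝ) ^ (2 * L + 4))) ^ M + 2 * (b : ℝ) ^ 4 * ((b : ℝ) ^ (Z / 2))⁻¹ ≤
        ((Z : ℝ) ^ 4)⁻¹ := by
  have hb0 : (0 : ℝ) < b := by exact_mod_cast (by omega : 0 < b)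
  have hb1 : (1 : ℝ) < b := by exact_mod_cast (by omega : 1 < b)
  obtain ⟨C1, hC1⟩ : ∃ C1 : ℝ, C1 = 1 / (128 * K ^ 2 * (b : ℝ) ^ 6) := ⟨_, rfl⟩
  have hC1p : 0 < C1 := by rw [hC1]; positivity
  -- logarithms are small
  have hlog : ∀ᶠ Z : ℕ in atTop, ((s0 : ℝ) + 2 + 4 * Real.log Z) * 8 ≤ (Z : ℝ) ^ (1 / 2 - c) := by
    have h1 : (fun x : ℝ => ((s0 : ℝ) + 2 + 4 * Real.log x) * 8) =o[atTop] fun x : ℝ => x ^ (1 / 2 - c) := by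
      have h2 : (fun x : ℝ => Real.log x) =o[atTop] fun x : ℝ => x ^ (1 / 2 - c) :=
        isLittleO_log_rpow_atTop (by linarith)
      have h3 : (fun _ : ℝ => ((s0 : ℝ) + 2) * 8) =o[atTop] fun x : ℝ => x ^ (1 / 2 - c) := by
        rw [Asymptotics.isLittleO_const_left]
        right
        exact tendsto_norm_atTop_atTop.comp (tendsto_rpow_atTop (by linarith))
      have h4 := h3.add (h2.const_mul_left 32)
      refine h4.congr (fun x => by ring) (fun x => rfl)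
    have h5 := h1.bound (show (0 : ℝ) < 1 by norm_num)
    filter_upwards [tendsto_natCast_atTop_atTop.eventually h5] with Z hZ
    rw [one_mul, Real.norm_eq_abs, Real.norm_eq_abs, abs_of_nonneg (by positivity : (0 : ℝ) ≤ (Z : ℝ) ^ (1 / 2 - c))] at hZ
    exact (le_abs_self _).trans hZ
  filter_upwards [hlog, exp_small C1 (1 / 2 - c) hC1p (by linarith),
    pow_small b hb (2 * (b : ℝ) ^ 4), eventually_ge_atTop 4] with Z h1 h2 h3 hZ4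
  have hZ0 : (0 : ℝ) < Z := by exact_mod_cast (by omega : 0 < Z)
  have hZ1 : (1 : ℝ) ≤ Z := by exact_mod_cast (by omega : 1 ≤ Z)
  obtain ⟨n, hn1, hn2⟩ := exists_nat_pow_near (Real.one_le_rpow hZ1 hc0) hb1
  have hγ1 : (1 : ℝ) ≤ (Z : ℝ) ^ (1 / 2 + c) := Real.one_le_rpow hZ1 (by linarith)
  have hMle : ((⌊(Z : ℝ) ^ (1 / 2 + c)⌋₊ : ℕ) : ℝ) ≤ (Z : ℝ) ^ (1 / 2 + c) :=
    Nat.floor_le (by positivity)
  refine ⟨n + 1, ⌊(Z : ℝ) ^ (1 / 2 + c)⌋₊, hn2, fun k hk => ?_, ?_⟩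
  · -- `L` is at most logarithmic
    have h4 : (n : ℝ) ≤ 2 * Real.log Z := by
      have h5 : (2 : ℝ) ^ n ≤ Z := by
        calc (2 : ℝ) ^ n ≤ (b : ℝ) ^ n := pow_le_pow_left₀ (by norm_num) (by exact_mod_cast hb) n
          _ ≤ (Z : ℝ) ^ c := hn1
          _ ≤ (Z : ℝ) ^ (1 : ℝ) := Real.rpow_le_rpow_of_exponent_le hZ1 (by linarith)
          _ = Z := Real.rpow_one _
      have h6 := Real.log_le_log (by positivity) h5
      rw [Real.log_pow] at h6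
      have h7 := Real.log_two_gt_d9
      nlinarith
    have h5 : (8 : ℝ) * (⌊(Z : ℝ) ^ (1 / 2 + c)⌋₊ * ((s0 : ℝ) + 2 * (n + 1))) ≤ Z := by
      calc (8 : ℝ) * (⌊(Z : ℝ) ^ (1 / 2 + c)⌋₊ * ((s0 : ℝ) + 2 * (n + 1)))
          ≤ 8 * ((Z : ℝ) ^ (1 / 2 + c) * ((s0 : ℝ) + 2 + 4 * Real.log Z)) := by
            have : (s0 : ℝ) + 2 * (n + 1) ≤ (s0 : ℝ) + 2 + 4 * Real.log Z := by linarith
            gcongr
        _ = (Z : ℝ) ^ (1 / 2 + c) * (((s0 : ℝ) + 2 + 4 * Real.log Z) * 8) := by ring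
        _ ≤ (Z : ℝ) ^ (1 / 2 + c) * (Z : ℝ) ^ (1 / 2 - c) := by gcongr
        _ = Z := by
            rw [← Real.rpow_add hZ0, show (1 : ℝ) / 2 + c + (1 / 2 - c) = 1 by ring, Real.rpow_one]
    have h6 : 8 * (⌊(Z : ℝ) ^ (1 / 2 + c)⌋₊ * (s0 + 2 * (n + 1))) ≤ Z := by exact_mod_cast h5
    omega
  · have hκ : (b : ℝ) ^ (2 * (n + 1) + 4) ≤ (Z : ℝ) ^ (2 * c) * (b : ℝ) ^ 6 := by
      have e1 : (b : ℝ) ^ (2 * (n + 1) + 4) = (b : ℝ) ^ n * (b : ℝ) ^ n * (b : ℝ) ^ 6 := by ring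
      have e2 : (Z : ℝ) ^ (2 * c) = (Z : ℝ) ^ c * (Z : ℝ) ^ c := by
        rw [← Real.rpow_add hZ0]; congr 1; ring
      rw [e1, e2]
      gcongr
    have hM2 : (Z : ℝ) ^ (1 / 2 + c) / 2 ≤ ((⌊(Z : ℝ) ^ (1 / 2 + c)⌋₊ : ℕ) : ℝ) := by
      have := Nat.lt_floor_add_one ((Z : ℝ) ^ (1 / 2 + c))
      have h6 : (2 : ℝ) ≤ (Z : ℝ) ^ (1 / 2 + c) := by
        calc (2 : ℝ) = (4 : ℝ) ^ (1 / 2 : ℝ) := by
              rw [show (4 : ℝ) = 2 ^ (2 : ℝ) by norm_num, ← Real.rpow_mul (by norm_num)]; norm_num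
          _ ≤ (Z : ℝ) ^ (1 / 2 : ℝ) := Real.rpow_le_rpow (by norm_num) (by exact_mod_cast hZ4) (by norm_num)
          _ ≤ _ := Real.rpow_le_rpow_of_exponent_le hZ1 (by linarith)
      linarith
    obtain ⟨κ, hκd⟩ : ∃ κ : ℝ, κ = 1 / (64 * K ^ 2 * (b : ℝ) ^ (2 * (n + 1) + 4)) := ⟨_, rfl⟩
    have hκ0 : 0 < κ := by rw [hκd]; positivity
    have hκ1 : κ ≤ 1 := by
      rw [hκd, div_le_one (by positivity)]
      have h7 : (1 : ℝ) ≤ (b : ℝ) ^ (2 * (n + 1) + 4) := one_le_pow₀ hb1.le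
      nlinarith
    rw [← hκd]
    have h8 : (1 - κ) ^ ⌊(Z : ℝ) ^ (1 / 2 + c)⌋₊ ≤ Real.exp (-(C1 * (Z : ℝ) ^ (1 / 2 - c))) := by
      have h9 : (1 - κ) ^ ⌊(Z : ℝ) ^ (1 / 2 + c)⌋₊ ≤ (Real.exp (-κ)) ^ ⌊(Z : ℝ) ^ (1 / 2 + c)⌋₊ :=
        pow_le_pow_left₀ (by linarith) (by have := Real.add_one_le_exp (-κ); linarith) _
      refine h9.trans ?_
      rw [← Real.exp_nat_mul]
      apply Real.exp_le_exp.2
      have h10 : C1 * (Z : ℝ) ^ (1 / 2 - c) ≤ ⌊(Z : ℝ) ^ (1 / 2 + c)⌋₊ * κ := by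
        calc C1 * (Z : ℝ) ^ (1 / 2 - c)
            = (Z : ℝ) ^ (1 / 2 + c) / 2 * (1 / (64 * K ^ 2 * ((Z : ℝ) ^ (2 * c) * (b : ℝ) ^ 6))) := by
              have e3 : (Z : ℝ) ^ (1 / 2 + c) = (Z : ℝ) ^ (1 / 2 - c) * (Z : ℝ) ^ (2 * c) := by
                rw [← Real.rpow_add hZ0]; congr 1; ring
              rw [e3, hC1]
              have : (0 : ℝ) < (Z : ℝ) ^ (2 * c) := by positivity
              field_simp
              ring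
          _ ≤ ⌊(Z : ℝ) ^ (1 / 2 + c)⌋₊ * κ := by
              rw [hκd]
              gcongr
      linarith
    have e4 : ((Z : ℝ) ^ 4)⁻¹ = 1 / 2 * ((Z : ℝ) ^ 4)⁻¹ + 1 / 2 * ((Z : ℝ) ^ 4)⁻¹ := by ring
    rw [e4]
    exact add_le_add (h8.trans h2) h3

end Q83.NP
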