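import Pool.Agent.Q83.NP.F

/-!
# Digit noise: powers
-/

set_option autoImplicit false
set_option linter.unusedSectionVars false

open MeasureTheory Filter Topology Finset
open scoped ENNReal
open Pool.Agent.H493R3 (ee ee_norm ee_add ee_neg ee_int ee_lip)

namespace Q83.NP

/-- second derivative of the power -/
noncomputable def Pn (n : ℕ) (β : ℝ) : ℝ := (n : ℝ) * ((n - 1 : ℕ) : ℝ) * β ^ (n - 2)

lemma Pn_nonneg (n : ℕ) {β : ℝ} (hβ : 0 ≤ β) : 0 ≤ Pn n β := by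
  unfold Pn; positivity

lemma Pn_mul (n m : ℕ) (hmn : m < n) {β : ℝ} (hβ : 1 ≤ β) : Pn m β * β ≤ Pn n β := by
  unfold Pn
  rcases Nat.lt_or_ge m 2 with hm | hm
  · have h1 : (m : ℝ) * ((m - 1 : ℕ) : ℝ) = 0 := by
      interval_cases m <;> simp
    rw [h1]
    simp only [zero_mul]
    positivity
  · have h1 : m * (m - 1) ≤ n * (n - 1) := Nat.mul_le_mul hmn.le (by omega)
    have h2 : (m : ℝ) * ((m - 1 : ℕ) : ℝ) ≤ (n : ℝ) * ((n - 1 : ℕ) : ℝ) := by exact_mod_cast h1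
    rw [mul_assoc, ← pow_succ]
    exact mul_le_mul h2 (pow_le_pow_right₀ hβ (by omega)) (by positivity) (by positivity)

lemma Pn_diff (n m : ℕ) (hmn : m < n) {β η : ℝ} (hη : 0 < η) (hβ : 1 + η ≤ β) :
    η / (1 + η) * Pn n β ≤ Pn n β - Pn m β ∧ Pn n β - Pn m β ≤ Pn n β := by
  have h1 := Pn_mul n m hmn (by linarith : 1 ≤ β)
  have h2 := Pn_nonneg m (by linarith : 0 ≤ β)
  refine ⟨?_, by linarith⟩
  have h3 : Pn m β * (1 + η) ≤ Pn n β := by nlinarith
  have h4 : Pn m β ≤ Pn n β / (1 + η) := by rwa [le_div_iff₀ (by linarith)]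
  have h5 : η / (1 + η) * Pn n β = Pn n β - Pn n β / (1 + η) := by field_simp; ring
  linarith

lemma Pn_ratio (n : ℕ) {β1 β2 ρ : ℝ} (hβ1 : 1 ≤ β1) (hρ : 0 ≤ ρ) (h : β2 ≤ β1 + 2 * ρ) (h2 : 0 ≤ β2)
    (hn : ρ * n ≤ 1) : Pn n β2 ≤ 8 * Pn n β1 := by
  unfold Pn
  have h3 : β2 ≤ β1 * Real.exp (2 * ρ) := by
    have := Real.add_one_le_exp (2 * ρ)
    nlinarith
  have h4 : β2 ^ (n - 2) ≤ β1 ^ (n - 2) * 8 := by
    calc β2 ^ (n - 2) ≤ (β1 * Real.exp (2 * ρ)) ^ (n - 2) := pow_le_pow_left₀ h2 h3 _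
      _ = β1 ^ (n - 2) * Real.exp (((n - 2 : ℕ) : ℝ) * (2 * ρ)) := by
          rw [mul_pow, Real.exp_nat_mul]
      _ ≤ β1 ^ (n - 2) * 8 := by
          gcongr
          have h5 : ((n - 2 : ℕ) : ℝ) * (2 * ρ) ≤ 2 := by
            have h6 : ((n - 2 : ℕ) : ℝ) ≤ n := by exact_mod_cast Nat.sub_le n 2
            nlinarith
          refine (Real.exp_le_exp.2 h5).trans ?_
          have h7 : Real.exp 2 = Real.exp 1 ^ 2 := by rw [← Real.exp_nat_mul]; norm_num
          rw [h7]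
          have h8 := Real.exp_one_lt_d9
          have h9 := Real.exp_pos 1
          nlinarith
  calc (n : ℝ) * ((n - 1 : ℕ) : ℝ) * β2 ^ (n - 2) ≤ (n : ℝ) * ((n - 1 : ℕ) : ℝ) * (β1 ^ (n - 2) * 8) := by
        gcongr
    _ = _ := by ring

lemma Pn_mono (n : ℕ) {β1 β2 : ℝ} (h0 : 0 ≤ β1) (h : β1 ≤ β2) : Pn n β1 ≤ Pn n β2 := by
  unfold Pn; gcongr

lemma Pn_big (n : ℕ) (hn : 2 ≤ n) {β η : ℝ} (hη : 0 ≤ η) (hβ : 1 + η ≤ β) : (1 + η) ^ (n - 2) ≤ Pn n β := by
  unfold Pn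
  have h1 : (1 : ℝ) ≤ (n : ℝ) * ((n - 1 : ℕ) : ℝ) := by
    have : 1 ≤ n * (n - 1) := Nat.mul_pos (by omega) (by omega)
    exact_mod_cast this
  calc (1 + η) ^ (n - 2) ≤ β ^ (n - 2) := pow_le_pow_left₀ (by linarith) hβ _
    _ = 1 * β ^ (n - 2) := (one_mul _).symm
    _ ≤ _ := by
        have : 0 ≤ β := by linarith
        gcongr

/-- `T` meets `[x, x + c log_b x]` for all large `x`. -/
def Recurs (b : ℕ) (c : ℝ) (T : Set ℕ) : Prop :=
  ∀ᶠ x : ℕ in atTop, ∃ t ∈ T, x ≤ t ∧ (t : ℝ) ≤ x + c * Real.logb b x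

lemma Recurs.mono {b : ℕ} (hb : 2 ≤ b) {c c' : ℝ} {T : Set ℕ} (h : Recurs b c T) (hc : c ≤ c') :
    Recurs b c' T := by
  filter_upwards [h, eventually_ge_atTop 1] with x hx hx1
  obtain ⟨t, h1, h2, h3⟩ := hx
  refine ⟨t, h1, h2, h3.trans ?_⟩
  have : 0 ≤ Real.logb b x := Real.logb_nonneg (by exact_mod_cast (by omega : 1 < b)) (by exact_mod_cast hx1)
  gcongr

/-- the gap condition in multiplicative form -/
lemma Recurs.gap {b : ℕ} (hb : 2 ≤ b) {c : ℝ} (hc : 0 ≤ c) {T : Set ℕ} (h : Recurs b c T) :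
    ∃ x0 : ℕ, ∀ Z L : ℕ, (Z : ℝ) ^ c < (b : ℝ) ^ L → ∀ x, x0 ≤ x → x ≤ Z →
      ∃ t ∈ T, x ≤ t ∧ t < x + L := by
  obtain ⟨x0, hx0⟩ := eventually_atTop.1 h
  refine ⟨max x0 1, fun Z L hZL x hx hxZ => ?_⟩
  obtain ⟨t, h1, h2, h3⟩ := hx0 x ((le_max_left _ _).trans hx)
  have hx1 : 1 ≤ x := (le_max_right _ _).trans hx
  refine ⟨t, h1, h2, ?_⟩
  have hb1 : (1 : ℝ) < b := by exact_mod_cast (by omega : 1 < b)
  have hxR : (1 : ℝ) ≤ x := by exact_mod_cast hx1
  have h4 : (b : ℝ) ^ (t - x) ≤ (x : ℝ) ^ c := by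
    have h5 : (((t - x : ℕ) : ℕ) : ℝ) ≤ c * Real.logb b x := by
      rw [Nat.cast_sub h2]; linarith
    calc (b : ℝ) ^ (t - x) = (b : ℝ) ^ (((t - x : ℕ) : ℕ) : ℝ) := (Real.rpow_natCast _ _).symm
      _ ≤ (b : ℝ) ^ (c * Real.logb b x) := Real.rpow_le_rpow_of_exponent_le hb1.le h5
      _ = (x : ℝ) ^ c := by
          rw [mul_comm, Real.rpow_mul (by linarith), Real.rpow_logb (by linarith) hb1.ne' (by linarith)]
  have h6 : (b : ℝ) ^ (t - x) < (b : ℝ) ^ L :=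
    (h4.trans (Real.rpow_le_rpow (by linarith) (by exact_mod_cast hxZ) hc)).trans_lt hZL
  have h7 := (pow_lt_pow_iff_right₀ hb1).1 h6
  omega

variable {b : ℕ} [NeZero b]

/-- **Decay of the mean of `ee (y (β ^ n - β ^ m))`.** -/
theorem pw (hb : 2 ≤ b) (d : ℕ → Fin b) (T : Set ℕ) (c : ℝ) (hc0 : 0 ≤ c) (hc : c < 1 / 2)
    (hT : Recurs b c T) (x r y η : ℝ) (hr : r ≠ 0) (hy : 0 < y) (hη : 0 < η) (k0 : ℕ) (w0 : ℕ → Fin b)
    (hβ : ∀ ω ∈ cyl k0 w0, 1 + 2 * η ≤ x + r * Real.ofDigits ω) :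
    ∃ C : ℝ, 0 ≤ C ∧ ∀ n m : ℕ, m < n →
      ‖∫ ω in cyl k0 w0, ee (y * ((x + r * Real.ofDigits ω) ^ n - (x + r * Real.ofDigits ω) ^ m))
        ∂(noise d T)‖ ≤ C / (n : ℝ) ^ 4 := by
  have hn' := noise_prob hb d T
  have hb0 : (0 : ℝ) < b := by exact_mod_cast (by omega : 0 < b)
  have hb1 : (1 : ℝ) < b := by exact_mod_cast (by omega : 1 < b)
  have hb1' : (1 : ℝ) ≤ b := hb1.le
  obtain ⟨K, hK⟩ : ∃ K : ℝ, K = 8 * ((1 + η) / η) := ⟨_, rfl⟩
  have hK1 : 1 ≤ K := by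
    have : 1 ≤ (1 + η) / η := by rw [le_div_iff₀ hη]; linarith
    rw [hK]; linarith
  obtain ⟨s0, hs0⟩ : ∃ s0 : ℕ, 4 * K * b ≤ (b : ℝ) ^ s0 := by
    obtain ⟨s0, hs0⟩ := pow_unbounded_of_one_lt (4 * K * b) hb1
    exact ⟨s0, hs0.le⟩
  obtain ⟨x0, hx0⟩ := hT.gap hb hc0
  obtain ⟨Z0, hZ0⟩ := eventually_atTop.1 (asym b hb K hK1 s0 c hc0 hc)
  obtain ⟨R, hR⟩ : ∃ R : ℝ, R = (|r| + 1) * (1 + 1 / η) := ⟨_, rfl⟩
  have hrpos : 0 < |r| := abs_pos.2 hr
  have hR1 : |r| ≤ R := by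
    rw [hR]
    have : 0 < 1 / η := by positivity
    nlinarith
  have hR2 : |r| ≤ R * η := by
    rw [hR]
    have : (|r| + 1) * (1 + 1 / η) * η = (|r| + 1) * (η + 1) := by field_simp
    rw [this]; nlinarith
  obtain ⟨k1', hk1'⟩ := pow_unbounded_of_one_lt R hb1
  obtain ⟨k1, hk1⟩ : ∃ k1, k1 = max k1' (max k0 x0) := ⟨_, rfl⟩
  have hk1R : R ≤ (b : ℝ) ^ k1 :=
    hk1'.le.trans (pow_le_pow_right₀ hb1' (by rw [hk1]; exact le_max_left _ _))
  have hk10 : k0 ≤ k1 := by rw [hk1]; exact (le_max_left _ _).trans (le_max_right _ _)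
  have hk1x : x0 ≤ k1 := by rw [hk1]; exact (le_max_right _ _).trans (le_max_right _ _)
  -- growth of `Z`
  obtain ⟨c1, hc1⟩ : ∃ c1 : ℝ, c1 = Real.log (1 + η) / (2 * Real.log b) := ⟨_, rfl⟩
  have hlb : 0 < Real.log b := Real.log_pos hb1
  have hlη : 0 < Real.log (1 + η) := Real.log_pos (by linarith)
  have hc1p : 0 < c1 := by rw [hc1]; positivity
  obtain ⟨E, hE⟩ : ∃ E : ℝ, E = 4 * K * (y * r ^ 2 * (η / (1 + η))) := ⟨_, rfl⟩
  have hE0 : 0 < E := by
    rw [hE]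
    have : 0 < r ^ 2 := by positivity
    positivity
  have hbig : ∀ᶠ n : ℕ in atTop, 2 ≤ n ∧ 1 ≤ E * (1 + η) ^ (n - 2) ∧
      (b : ℝ) ^ (c1 * n) ≤ E * (1 + η) ^ (n - 2) ∧ (Z0 : ℝ) ≤ c1 * n ∧ 8 ≤ c1 * n ∧
      8 * ((k1 : ℝ) + (Nat.log 2 n + 1)) ≤ c1 * n := by
    have h1 : Tendsto (fun n : ℕ => E * (1 + η) ^ (n - 2)) atTop atTop := by
      refine Tendsto.const_mul_atTop hE0 ?_
      exact (tendsto_pow_atTop_atTop_of_one_lt (by linarith)).comp (tendsto_sub_atTop_nat 2)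
    have h2 : Tendsto (fun n : ℕ => c1 * (n : ℝ)) atTop atTop :=
      Tendsto.const_mul_atTop hc1p tendsto_natCast_atTop_atTop
    have h3 : ∀ᶠ n : ℕ in atTop, (b : ℝ) ^ (c1 * n) ≤ E * (1 + η) ^ (n - 2) := by
      have h4 : Tendsto (fun n : ℕ => Real.log (1 + η) / 2 * (n : ℝ)) atTop atTop :=
        Tendsto.const_mul_atTop (by positivity) tendsto_natCast_atTop_atTop
      filter_upwards [h4.eventually_ge_atTop (2 * Real.log (1 + η) - Real.log E),
        eventually_ge_atTop 2] with n hn hn2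
      have e1 : (b : ℝ) ^ (c1 * n) = Real.exp (Real.log (1 + η) / 2 * n) := by
        rw [Real.rpow_def_of_pos hb0, hc1]
        congr 1
        field_simp
      have e2 : E * (1 + η) ^ (n - 2) = Real.exp (Real.log E + ((n - 2 : ℕ) : ℝ) * Real.log (1 + η)) := by
        rw [Real.exp_add, Real.exp_log hE0, Real.exp_nat_mul, Real.exp_log (by linarith)]
      rw [e1, e2]
      apply Real.exp_le_exp.2
      rw [Nat.cast_sub hn2]
      push_cast
      nlinarith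
    have h5 : ∀ᶠ n : ℕ in atTop, 8 * ((k1 : ℝ) + (Nat.log 2 n + 1)) ≤ c1 * n := by
      have h6 : (fun x : ℝ => 8 * ((k1 : ℝ) + 1) + 16 * Real.log x) =o[atTop] fun x : ℝ => x := by
        have h7 : (fun _ : ℝ => 8 * ((k1 : ℝ) + 1)) =o[atTop] fun x : ℝ => x := by
          rw [Asymptotics.isLittleO_const_left]
          right
          exact tendsto_norm_atTop_atTop
        exact h7.add (Real.isLittleO_log_id_atTop.const_mul_left 16)
      have h8 := h6.bound hc1p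
      filter_upwards [tendsto_natCast_atTop_atTop.eventually h8, eventually_ge_atTop 1] with n hn hn1
      have hnR : (1 : ℝ) ≤ n := by exact_mod_cast hn1
      rw [Real.norm_eq_abs, Real.norm_eq_abs, abs_of_nonneg (by linarith : (0 : ℝ) ≤ n)] at hn
      have h9 := (le_abs_self _).trans hn
      have h10 : ((Nat.log 2 n : ℕ) : ℝ) ≤ 2 * Real.log n := by
        have h11 : (2 : ℝ) ^ (Nat.log 2 n) ≤ n := by
          exact_mod_cast Nat.pow_log_le_self 2 (by omega)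
        have h12 := Real.log_le_log (by positivity) h11
        rw [Real.log_pow] at h12
        have h13 := Real.log_two_gt_d9
        nlinarith [Nat.cast_nonneg (α := ℝ) (Nat.log 2 n)]
      linarith
    filter_upwards [eventually_ge_atTop 2, h1.eventually_ge_atTop 1, h3,
      h2.eventually_ge_atTop (Z0 : ℝ), h2.eventually_ge_atTop 8, h5] with n a1 a2 a3 a4 a5 a6
    exact ⟨a1, a2, a3, a4, a5, a6⟩
  obtain ⟨N0, hN0⟩ := eventually_atTop.1 hbig
  refine ⟨max ((N0 : ℝ) ^ 4) ((c1 ^ 4)⁻¹), le_max_of_le_left (by positivity), fun n m hmn => ?_⟩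
  obtain ⟨F, hF⟩ : ∃ F : (ℕ → Fin b) → ℂ, F = fun ω =>
    ee (y * ((x + r * Real.ofDigits ω) ^ n - (x + r * Real.ofDigits ω) ^ m)) := ⟨_, rfl⟩
  have hFn : ∀ ω, ‖F ω‖ ≤ 1 := fun ω => by rw [hF]; exact (ee_norm _).le
  have hbm : Measurable fun ω : ℕ → Fin b => x + r * Real.ofDigits ω :=
    (s_meas.const_mul r).const_add x
  have hFm : Measurable F := by
    rw [hF]
    exact ee_cont.measurable.comp (((hbm.pow_const n).sub (hbm.pow_const m)).const_mul y)
  have hn0 : 0 < n := by omega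
  have hnR : (0 : ℝ) < n := by exact_mod_cast hn0
  rcases lt_or_ge n N0 with hlt | hge
  · have h1 : ‖∫ ω in cyl k0 w0, F ω ∂(noise d T)‖ ≤ 1 := by
      refine (norm_setIntegral_le_of_norm_le_const (measure_lt_top _ _) fun ω _ => hFn ω).trans ?_
      rw [one_mul]; exact measureReal_le_one
    rw [hF] at h1
    refine h1.trans ?_
    rw [le_div_iff₀ (by positivity), one_mul]
    refine le_trans ?_ (le_max_left _ _)
    exact pow_le_pow_left₀ hnR.le (by exact_mod_cast hlt.le) 4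
  · obtain ⟨hn2, g1, g2, g3, g4, g5⟩ := hN0 n hge
    -- the cylinders
    obtain ⟨k, hk⟩ : ∃ k, k = k1 + (Nat.log 2 n + 1) := ⟨_, rfl⟩
    have hbk : R * n ≤ (b : ℝ) ^ k := by
      have h1 : (n : ℝ) ≤ (b : ℝ) ^ (Nat.log 2 n + 1) := by
        calc (n : ℝ) ≤ (2 : ℝ) ^ (Nat.log 2 n + 1) := by
              exact_mod_cast (Nat.lt_pow_succ_log_self (by norm_num) n).le
          _ ≤ _ := pow_le_pow_left₀ (by norm_num) (by exact_mod_cast hb) _
      rw [hk, pow_add]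
      exact mul_le_mul hk1R h1 hnR.le (by positivity)
    obtain ⟨ρ, hρ⟩ : ∃ ρ : ℝ, ρ = |r| * ((b : ℝ) ^ k)⁻¹ := ⟨_, rfl⟩
    have hρ0 : 0 ≤ ρ := by rw [hρ]; positivity
    have hρn : ρ * n ≤ 1 := by
      rw [hρ, mul_assoc, mul_comm _ (n : ℝ), ← mul_assoc, ← div_eq_mul_inv, div_le_one (by positivity)]
      exact (mul_le_mul_of_nonneg_right hR1 hnR.le).trans hbk
    have hρη : ρ ≤ η := by
      rw [hρ, ← div_eq_mul_inv, div_le_iff₀ (by positivity)]
      have hn1 : (1 : ℝ) ≤ n := by exact_mod_cast hn0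
      have h1 : R ≤ (b : ℝ) ^ k := by
        refine le_trans ?_ hbk
        have : 0 ≤ R := hrpos.le.trans hR1
        nlinarith
      calc |r| ≤ R * η := hR2
        _ ≤ (b : ℝ) ^ k * η := by gcongr
        _ = _ := mul_comm _ _
    have hmain : ∀ w ∈ cyl k0 w0, ‖∫ ω in cyl k w, F ω ∂(noise d T)‖ ≤
        ((c1 * n) ^ 4)⁻¹ * (noise d T).real (cyl k w) := by
      intro w hw
      obtain ⟨β0, hβ0⟩ : ∃ β0 : ℝ, β0 = x + r * Real.ofDigits w := ⟨_, rfl⟩
      have hβ0' : 1 + 2 * η ≤ β0 := by rw [hβ0]; exact hβ w hw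
      obtain ⟨A, hA⟩ : ∃ A : ℝ, A = y * r ^ 2 * (η / (1 + η)) * Pn n (β0 - ρ) := ⟨_, rfl⟩
      have hr2 : 0 < r ^ 2 := by positivity
      have hP1 := Pn_big n hn2 hη.le (by linarith : 1 + η ≤ β0 - ρ)
      have hPpos : 0 < Pn n (β0 - ρ) := lt_of_lt_of_le (by positivity) hP1
      have hApos : 0 < A := by rw [hA]; positivity
      have hA4 : E * (1 + η) ^ (n - 2) ≤ 4 * K * A := by
        rw [hE, hA]
        calc 4 * K * (y * r ^ 2 * (η / (1 + η))) * (1 + η) ^ (n - 2)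
            ≤ 4 * K * (y * r ^ 2 * (η / (1 + η))) * Pn n (β0 - ρ) := by gcongr
          _ = _ := by ring
      obtain ⟨Z', hZ1, hZ2⟩ := exists_nat_pow_near (g1.trans hA4) hb1
      obtain ⟨Z, hZd⟩ : ∃ Z, Z = Z' + 1 := ⟨_, rfl⟩
      have hbZ : (b : ℝ) ^ Z ≤ 4 * K * A * b := by
        rw [hZd, pow_succ]; gcongr
      have hcZ : c1 * n ≤ Z := by
        have h1 : (b : ℝ) ^ (c1 * n) ≤ (b : ℝ) ^ (Z : ℝ) := by
          rw [Real.rpow_natCast]
          refine (g2.trans hA4).trans ?_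
          rw [hZd]; exact hZ2.le
        exact (Real.rpow_le_rpow_left_iff hb1).1 h1
      have hZ8 : 8 ≤ Z := by exact_mod_cast g4.trans hcZ
      have hZZ0 : Z0 ≤ Z := by exact_mod_cast g3.trans hcZ
      have hkZ : 8 * k ≤ Z := by
        have h1 : (8 : ℝ) * ((k1 : ℝ) + (Nat.log 2 n + 1)) ≤ Z := g5.trans hcZ
        have h2 : 8 * (k1 + (Nat.log 2 n + 1)) ≤ Z := by exact_mod_cast h1
        rw [hk]; exact h2
      obtain ⟨L, M, hL, hM, hB⟩ := hZ0 Z hZZ0
      -- the function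
      have hun : ∀ u, |u - Real.ofDigits w| ≤ ((b : ℝ) ^ k)⁻¹ → |(x + r * u) - β0| ≤ ρ := by
        intro u hu
        have e1 : (x + r * u) - β0 = r * (u - Real.ofDigits w) := by rw [hβ0]; ring
        rw [e1, abs_mul, hρ]
        gcongr
      have hest := est hb d T k w
        (fun u => y * ((x + r * u) ^ n - (x + r * u) ^ m))
        (fun u => y * r * ((n : ℝ) * (x + r * u) ^ (n - 1) - (m : ℝ) * (x + r * u) ^ (m - 1)))
        (fun u => y * r ^ 2 * (Pn n (x + r * u) - Pn m (x + r * u))) A K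
        (by fun_prop) (by fun_prop)
        (fun u _ => by
          have h1 : HasDerivAt (fun u : ℝ => x + r * u) r u := by
            simpa using ((hasDerivAt_id u).const_mul r).const_add x
          have h2 := ((h1.pow n).sub (h1.pow m)).const_mul y
          exact h2.congr_deriv (by ring))
        (fun u _ => by
          have h1 : HasDerivAt (fun u : ℝ => x + r * u) r u := by
            simpa using ((hasDerivAt_id u).const_mul r).const_add x
          have h2 := (((h1.pow (n - 1)).const_mul (n : ℝ)).sub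
            ((h1.pow (m - 1)).const_mul (m : ℝ))).const_mul (y * r)
          refine h2.congr_deriv ?_
          unfold Pn
          rw [Nat.sub_sub, Nat.sub_sub]
          ring)
        hApos hK1
        (fun u hu => by
          have h1 := abs_le.1 (hun u hu)
          have h2 := (Pn_diff n m hmn hη (by linarith : 1 + η ≤ x + r * u)).1
          have h3 := Pn_mono n (by linarith : 0 ≤ β0 - ρ) (by linarith : β0 - ρ ≤ x + r * u)
          rw [hA]
          calc y * r ^ 2 * (η / (1 + η)) * Pn n (β0 - ρ)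
              ≤ y * r ^ 2 * (η / (1 + η)) * Pn n (x + r * u) := by gcongr
            _ = y * r ^ 2 * (η / (1 + η) * Pn n (x + r * u)) := by ring
            _ ≤ _ := by gcongr)
        (fun u hu => by
          have h1 := abs_le.1 (hun u hu)
          have h2 := (Pn_diff n m hmn hη (by linarith : 1 + η ≤ x + r * u)).2
          have h3 := Pn_ratio n (β1 := β0 - ρ) (β2 := x + r * u) (ρ := ρ) (by linarith) hρ0
            (by linarith) (by linarith) hρn
          rw [hA, hK]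
          calc y * r ^ 2 * (Pn n (x + r * u) - Pn m (x + r * u))
              ≤ y * r ^ 2 * (8 * Pn n (β0 - ρ)) := by
                have := h2.trans h3
                gcongr
            _ = 8 * ((1 + η) / η) * (y * r ^ 2 * (η / (1 + η)) * Pn n (β0 - ρ)) := by
                field_simp)
        s0 hs0 L Z M
        (fun x' hx1 hx2 => hx0 Z L hL x' (hk1x.trans (by omega)) hx2)
        (by rw [hZd]; exact hZ2.le) hbZ hZ8 (hM k hkZ)
      rw [hF]
      refine hest.trans (mul_le_mul_of_nonneg_right (hB.trans ?_) measureReal_nonneg)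
      have : 0 < c1 * n := by positivity
      gcongr
    obtain ⟨j, hj⟩ : ∃ j, k = k0 + j := ⟨k - k0, by omega⟩
    have h1 := refine_cyl hb d T F hFm hFn (((c1 * n) ^ 4)⁻¹) j k0 w0 (by
      intro w hw
      rw [← hj]
      exact hmain w hw)
    rw [hF] at h1
    refine h1.trans ?_
    calc ((c1 * n) ^ 4)⁻¹ * (noise d T).real (cyl k0 w0) ≤ ((c1 * n) ^ 4)⁻¹ * 1 := by
          gcongr
          exact measureReal_le_one
      _ = (c1 ^ 4)⁻¹ / (n : ℝ) ^ 4 := by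
          rw [mul_pow]; field_simp
      _ ≤ _ := by
          gcongr
          exact le_max_right _ _

end Q83.NP
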