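import Pool.Agent.Q83.NP.G
import Pool.Agent.H493R3.Weyl

/-!
# Digit noise: square root cancellation, equidistribution
-/

set_option autoImplicit false
set_option linter.unusedSectionVars false

open MeasureTheory Filter Topology Finset
open scoped ENNReal
open Pool.Agent.H493R3 (ee ee_norm ee_add ee_neg ee_int ee_lip)

namespace Q83.NP

/-! ### The inequality of Rademacher and Menshov -/

/-- the sum over a block -/
noncomputable def bl (x : ℕ → ℝ) (a b : ℕ) : ℝ := ∑ j ∈ Ico a b, x j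

/-- the sum of the squares of the dyadic blocks -/
noncomputable def DD (x : ℕ → ℝ) : ℕ → ℕ → ℝ
  | 0, a => x a ^ 2
  | r + 1, a => DD x r a + DD x r (a + 2 ^ r) + bl x a (a + 2 ^ (r + 1)) ^ 2

lemma DD_nonneg (x : ℕ → ℝ) (r a : ℕ) : 0 ≤ DD x r a := by
  induction r generalizing a with
  | zero => exact sq_nonneg _
  | succ r ih =>
    have h1 := ih a
    have h2 := ih (a + 2 ^ r)
    simp only [DD]
    positivity

lemma bl_sq_le (x : ℕ → ℝ) (r a : ℕ) : bl x a (a + 2 ^ r) ^ 2 ≤ DD x r a := by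
  cases r with
  | zero => simp [bl, DD]
  | succ r =>
    simp only [DD]
    have h1 := DD_nonneg x r a
    have h2 := DD_nonneg x r (a + 2 ^ r)
    linarith

lemma bl_le (x : ℕ → ℝ) (r : ℕ) : ∀ a n : ℕ, n ≤ 2 ^ r → bl x a (a + n) ^ 2 ≤ ((r : ℝ) + 1) * DD x r a := by
  induction r with
  | zero =>
    intro a n hn
    have h1 : n = 0 ∨ n = 1 := by
      have : n ≤ 1 := by simpa using hn
      omega
    rcases h1 with rfl | rfl
    · simp [bl, DD, sq_nonneg]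
    · simp [bl, DD]
  | succ r ih =>
    intro a n hn
    have h1 := DD_nonneg x r a
    have h2 := DD_nonneg x r (a + 2 ^ r)
    have hr : (0 : ℝ) ≤ r := Nat.cast_nonneg _
    have h3 : ((r : ℝ) + 2) * (DD x r a + DD x r (a + 2 ^ r)) ≤ ((r + 1 : ℕ) + 1 : ℝ) * DD x (r + 1) a := by
      simp only [DD]
      push_cast
      have h4 := sq_nonneg (bl x a (a + 2 ^ (r + 1)))
      nlinarith
    refine le_trans ?_ h3
    rcases le_or_gt n (2 ^ r) with h | h
    · refine (ih a n h).trans ?_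
      nlinarith
    · obtain ⟨m, rfl⟩ : ∃ m, n = 2 ^ r + m := ⟨n - 2 ^ r, by omega⟩
      have hm : m ≤ 2 ^ r := by
        rw [pow_succ] at hn
        omega
      have h4 : bl x a (a + (2 ^ r + m)) = bl x a (a + 2 ^ r) + bl x (a + 2 ^ r) (a + 2 ^ r + m) := by
        unfold bl
        rw [sum_Ico_consecutive _ (by omega) (by omega), add_assoc]
      have h5 := ih (a + 2 ^ r) m hm
      have h6 := bl_sq_le x r a
      rw [h4]
      obtain ⟨u, hu⟩ : ∃ u, u = bl x a (a + 2 ^ r) := ⟨_, rfl⟩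
      obtain ⟨v, hv⟩ : ∃ v, v = bl x (a + 2 ^ r) (a + 2 ^ r + m) := ⟨_, rfl⟩
      rw [← hu] at h6 ⊢
      rw [← hv] at h5 ⊢
      have h7 : ((r : ℝ) + 1) * (u + v) ^ 2 ≤ ((r : ℝ) + 1) * (((r : ℝ) + 2) * (DD x r a + DD x r (a + 2 ^ r))) := by
        have h8 : ((r : ℝ) + 1) * (u + v) ^ 2 ≤ ((r : ℝ) + 1) * ((r : ℝ) + 2) * u ^ 2 + ((r : ℝ) + 2) * v ^ 2 := by
          nlinarith [sq_nonneg (((r : ℝ) + 1) * u - v)]
        have h9 := mul_le_mul_of_nonneg_left h5 (by positivity : (0 : ℝ) ≤ (r : ℝ) + 2)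
        have h10 := mul_le_mul_of_nonneg_left h6 (by positivity : (0 : ℝ) ≤ ((r : ℝ) + 1) * ((r : ℝ) + 2))
        linarith
      exact le_of_mul_le_mul_left h7 (by positivity)

/-- **The inequality of Rademacher and Menshov**, almost sure form. -/
theorem rm {Ω : Type*} [MeasurableSpace Ω] (μ : Measure Ω) [IsFiniteMeasure μ]
    (X : ℕ → Ω → ℝ) (hm : ∀ j, Measurable (X j)) (hb : ∀ j ω, |X j ω| ≤ 1) (K : ℝ)
    (hE : ∀ a b : ℕ, a ≤ b → ∫ ω, bl (fun j => X j ω) a b ^ 2 ∂μ ≤ K * (b - a : ℕ)) :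
    ∀ᵐ ω ∂μ, ∃ C : ℝ, ∀ N : ℕ, |∑ j ∈ range N, X j ω| ≤ C * (Real.sqrt N * Real.log (N + 1) ^ 2) := by
  have hmB : ∀ a b, Measurable fun ω => bl (fun j => X j ω) a b := fun a b =>
    Finset.measurable_fun_sum _ fun j _ => hm j
  have hbB : ∀ a b ω, |bl (fun j => X j ω) a b| ≤ (b - a : ℕ) := by
    intro a b ω
    refine (abs_sum_le_sum_abs _ _).trans ((sum_le_sum fun j _ => hb j ω).trans ?_)
    simp
  have hiB : ∀ a b, Integrable (fun ω => bl (fun j => X j ω) a b ^ 2) μ := fun a b =>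
    Integrable.of_bound ((hmB a b).pow_const _).aestronglyMeasurable (((b - a : ℕ) : ℝ) ^ 2)
      (Eventually.of_forall fun ω => by
        rw [Real.norm_eq_abs, abs_pow]
        exact pow_le_pow_left₀ (abs_nonneg _) (hbB a b ω) _)
  have hbl1 : ∀ a ω, bl (fun j => X j ω) a (a + 1) = X a ω := by
    intro a ω
    simp [bl]
  have hD : ∀ r a, Integrable (fun ω => DD (fun j => X j ω) r a) μ ∧
      ∫ ω, DD (fun j => X j ω) r a ∂μ ≤ K * (((r : ℝ) + 1) * 2 ^ r) := by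
    intro r
    induction r with
    | zero =>
      intro a
      have h1 := hE a (a + 1) (by omega)
      have h2 := hiB a (a + 1)
      simp_rw [hbl1] at h1 h2
      refine ⟨h2, ?_⟩
      simp only [DD]
      simpa using h1
    | succ r ih =>
      intro a
      obtain ⟨h1, h2⟩ := ih a
      obtain ⟨h3, h4⟩ := ih (a + 2 ^ r)
      have h5 := hiB a (a + 2 ^ (r + 1))
      have h6 := hE a (a + 2 ^ (r + 1)) (Nat.le_add_right _ _)
      have h13 : Integrable (fun ω => DD (fun j => X j ω) r a + DD (fun j => X j ω) r (a + 2 ^ r)) μ := h1.add h3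
      refine ⟨h13.add h5, ?_⟩
      simp only [DD]
      rw [integral_add h13 h5, integral_add h1 h3]
      rw [Nat.add_sub_cancel_left] at h6
      push_cast at h6 ⊢
      have e1 : (2 : ℝ) ^ (r + 1) = 2 * 2 ^ r := by ring
      have e2 : K * (((r : ℝ) + 1 + 1) * 2 ^ (r + 1)) =
          K * (((r : ℝ) + 1) * 2 ^ r) + K * (((r : ℝ) + 1) * 2 ^ r) + K * 2 ^ (r + 1) := by
        rw [e1]
        ring
      linarith
  have hK : 0 ≤ K := by
    have h1 := hE 0 1 (by omega)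
    have h2 : 0 ≤ ∫ ω, bl (fun j => X j ω) 0 1 ^ 2 ∂μ := integral_nonneg fun ω => sq_nonneg _
    have h3 := h2.trans h1
    simpa using h3
  -- Borel-Cantelli
  have hbc : ∀ᵐ ω ∂μ, ∀ᶠ r : ℕ in atTop,
      ω ∉ {ω | (K + 1) * ((r : ℝ) + 1) ^ 3 * 2 ^ r < DD (fun j => X j ω) r 0} := by
    refine ae_eventually_notMem ?_
    have hle : ∀ r : ℕ, μ {ω | (K + 1) * ((r : ℝ) + 1) ^ 3 * 2 ^ r < DD (fun j => X j ω) r 0} ≤
        ENNReal.ofReal (1 / ((r : ℝ) + 1) ^ 2) := by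
      intro r
      obtain ⟨hi, he⟩ := hD r 0
      have h2 := mul_meas_ge_le_integral_of_nonneg (μ := μ) (f := fun ω => DD (fun j => X j ω) r 0)
        (Eventually.of_forall fun ω => DD_nonneg _ _ _) hi ((K + 1) * ((r : ℝ) + 1) ^ 3 * 2 ^ r)
      have h3 : μ.real {ω | (K + 1) * ((r : ℝ) + 1) ^ 3 * 2 ^ r < DD (fun j => X j ω) r 0} ≤
          μ.real {ω | (K + 1) * ((r : ℝ) + 1) ^ 3 * 2 ^ r ≤ DD (fun j => X j ω) r 0} :=
        measureReal_mono fun ω hω => by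
          simp only [Set.mem_ofPred_eq] at hω ⊢
          exact hω.le
      have h4 := h2.trans he
      have hp : 0 < (K + 1) * ((r : ℝ) + 1) ^ 3 * 2 ^ r := by positivity
      rw [mul_comm, ← le_div_iff₀ hp] at h4
      have h5 : μ.real {ω | (K + 1) * ((r : ℝ) + 1) ^ 3 * 2 ^ r < DD (fun j => X j ω) r 0} ≤
          1 / ((r : ℝ) + 1) ^ 2 := by
        refine (h3.trans h4).trans ?_
        rw [div_le_div_iff₀ hp (by positivity)]
        have h6 : 0 ≤ ((r : ℝ) + 1) ^ 3 * 2 ^ r := by positivity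
        calc K * (((r : ℝ) + 1) * 2 ^ r) * ((r : ℝ) + 1) ^ 2 = K * (((r : ℝ) + 1) ^ 3 * 2 ^ r) := by ring
          _ ≤ (K + 1) * (((r : ℝ) + 1) ^ 3 * 2 ^ r) := by nlinarith
          _ = _ := by ring
      rw [measureReal_def] at h5
      rw [← ENNReal.ofReal_toReal (measure_ne_top μ _)]
      exact ENNReal.ofReal_le_ofReal h5
    refine ne_top_of_le_ne_top ?_ (ENNReal.tsum_le_tsum hle)
    have hs : Summable fun r : ℕ => 1 / ((r : ℝ) + 1) ^ 2 := by
      have := (Real.summable_one_div_nat_pow (p := 2)).2 (by norm_num)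
      have h7 := (summable_nat_add_iff 1).2 this
      simpa using h7
    rw [← ENNReal.ofReal_tsum_of_nonneg (fun r => by positivity) hs]
    exact ENNReal.ofReal_ne_top
  filter_upwards [hbc] with ω hω
  obtain ⟨r0, hr0⟩ := eventually_atTop.1 hω
  have hS : ∀ N : ℕ, ∑ j ∈ range N, X j ω = bl (fun j => X j ω) 0 (0 + N) := by
    intro N
    simp [bl]
  have hl2 : 0 < Real.log 2 := Real.log_pos (by norm_num)
  have hl2' : 1 / 2 < Real.log 2 := by
    have := Real.log_two_gt_d9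
    linarith
  refine ⟨Real.sqrt (2 * (K + 1)) * 64 + (2 : ℝ) ^ r0 / Real.log 2 ^ 2, fun N => ?_⟩
  rcases Nat.eq_zero_or_pos N with rfl | hN
  · simp
  have hNR : (1 : ℝ) ≤ N := by exact_mod_cast hN
  have hsN : 1 ≤ Real.sqrt N := Real.one_le_sqrt.2 hNR
  have hlN : Real.log 2 ≤ Real.log (N + 1) := Real.log_le_log (by norm_num) (by linarith)
  have hlN0 : 0 < Real.log (N + 1) := hl2.trans_le hlN
  -- `2 ^ r ≤ N < 2 ^ (r + 1)`
  obtain ⟨r, hr⟩ : ∃ r, r = Nat.log 2 N := ⟨_, rfl⟩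
  have h3 : 2 ^ r ≤ N := by
    rw [hr]
    exact Nat.pow_log_le_self 2 (by omega)
  have h4 : N < 2 ^ (r + 1) := by
    rw [hr]
    exact Nat.lt_pow_succ_log_self (by norm_num) N
  have h3R : (2 : ℝ) ^ r ≤ N := by exact_mod_cast h3
  have hc1 : 0 ≤ Real.sqrt (2 * (K + 1)) * 64 * (Real.sqrt N * Real.log (N + 1) ^ 2) := by positivity
  have hc2 : 0 ≤ (2 : ℝ) ^ r0 / Real.log 2 ^ 2 * (Real.sqrt N * Real.log (N + 1) ^ 2) := by positivity
  rw [add_mul]
  rcases lt_or_ge (r + 1) r0 with h0 | h0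
  · have h5 : |∑ j ∈ range N, X j ω| ≤ N := by
      rw [hS]
      refine (hbB _ _ ω).trans ?_
      simp
    have h6 : (N : ℝ) ≤ 2 ^ r0 := by
      have h7 : N ≤ 2 ^ r0 := h4.le.trans (Nat.pow_le_pow_right (by norm_num) h0.le)
      exact_mod_cast h7
    have h8 : (2 : ℝ) ^ r0 ≤ (2 : ℝ) ^ r0 / Real.log 2 ^ 2 * (Real.sqrt N * Real.log (N + 1) ^ 2) := by
      have h9 : Real.log 2 ^ 2 ≤ Real.sqrt N * Real.log (N + 1) ^ 2 := by
        calc Real.log 2 ^ 2 = 1 * Real.log 2 ^ 2 := (one_mul _).symm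
          _ ≤ _ := by gcongr
      calc (2 : ℝ) ^ r0 = (2 : ℝ) ^ r0 / Real.log 2 ^ 2 * Real.log 2 ^ 2 := by field_simp
        _ ≤ _ := by gcongr
    linarith
  · have h5 := hr0 (r + 1) h0
    simp only [Set.mem_ofPred_eq, not_lt] at h5
    push_cast at h5
    have h6 := bl_le (fun j => X j ω) (r + 1) 0 N h4.le
    rw [← hS] at h6
    push_cast at h6
    have hrl : (r : ℝ) ≤ 2 * Real.log (N + 1) := by
      have h7 : (2 : ℝ) ^ r ≤ N + 1 := by linarith
      have h8 := Real.log_le_log (by positivity) h7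
      rw [Real.log_pow] at h8
      nlinarith [Nat.cast_nonneg (α := ℝ) r]
    have hr2 : (r : ℝ) + 1 + 1 ≤ 8 * Real.log (N + 1) := by nlinarith
    have h7 : (∑ j ∈ range N, X j ω) ^ 2 ≤ (Real.sqrt (2 * (K + 1)) * 64 *
        (Real.sqrt N * Real.log (N + 1) ^ 2)) ^ 2 := by
      have e1 : (Real.sqrt (2 * (K + 1)) * 64 * (Real.sqrt N * Real.log (N + 1) ^ 2)) ^ 2 =
          (2 * (K + 1)) * 4096 * (N * Real.log (N + 1) ^ 4) := by
        rw [mul_pow, mul_pow, mul_pow, Real.sq_sqrt (by positivity), Real.sq_sqrt (by positivity)]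
        ring
      rw [e1]
      have h8 : ((r : ℝ) + 1 + 1) ^ 4 ≤ (8 * Real.log (N + 1)) ^ 4 :=
        pow_le_pow_left₀ (by positivity) hr2 4
      have h9 : (2 : ℝ) ^ (r + 1) ≤ 2 * N := by
        rw [pow_succ]; linarith
      calc (∑ j ∈ range N, X j ω) ^ 2
          ≤ ((r : ℝ) + 1 + 1) * DD (fun j => X j ω) (r + 1) 0 := h6
        _ ≤ ((r : ℝ) + 1 + 1) * ((K + 1) * ((r : ℝ) + 1 + 1) ^ 3 * 2 ^ (r + 1)) := by gcongr
        _ = (K + 1) * (((r : ℝ) + 1 + 1) ^ 4 * 2 ^ (r + 1)) := by ring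
        _ ≤ (K + 1) * ((8 * Real.log (N + 1)) ^ 4 * (2 * N)) := by gcongr
        _ = (2 * (K + 1)) * 4096 * (N * Real.log (N + 1) ^ 4) := by ring
    have h8 : |∑ j ∈ range N, X j ω| ≤ Real.sqrt (2 * (K + 1)) * 64 *
        (Real.sqrt N * Real.log (N + 1) ^ 2) := by
      apply abs_le_of_sq_le_sq _ (by positivity)
      exact h7
    linarith

/-! ### Second moments -/

variable {b : ℕ} [NeZero b]

lemma norm_conj_int {Ω : Type*} [MeasurableSpace Ω] (μ : Measure Ω) (g : Ω → ℝ) :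
    ‖∫ ω, ee (-(g ω)) ∂μ‖ = ‖∫ ω, ee (g ω) ∂μ‖ := by
  have : ∫ ω, ee (-(g ω)) ∂μ = (starRingEnd ℂ) (∫ ω, ee (g ω) ∂μ) := by
    rw [← integral_conj]
    refine integral_congr_ae (Eventually.of_forall fun ω => ?_)
    exact ee_neg _
  rw [this, RCLike.norm_conj]

/-- the decay for both signs of `y` and both orders of `n`, `m` -/
theorem pw2 (hb : 2 ≤ b) (d : ℕ → Fin b) (T : Set ℕ) (c : ℝ) (hc0 : 0 ≤ c) (hc : c < 1 / 2)
    (hT : Recurs b c T) (x r y η : ℝ) (hr : r ≠ 0) (hy : y ≠ 0) (hη : 0 < η) (k0 : ℕ) (w0 : ℕ → Fin b)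
    (hβ : ∀ ω ∈ cyl k0 w0, 1 + 2 * η ≤ x + r * Real.ofDigits ω) :
    ∃ C : ℝ, 0 ≤ C ∧ ∀ n m : ℕ, m < n →
      ‖∫ ω in cyl k0 w0, ee (y * ((x + r * Real.ofDigits ω) ^ n - (x + r * Real.ofDigits ω) ^ m))
        ∂(noise d T)‖ ≤ C / (n : ℝ) ^ 4 := by
  rcases lt_or_gt_of_ne hy with h | h
  · obtain ⟨C, hC0, hC⟩ := pw hb d T c hc0 hc hT x r (-y) η hr (by linarith) hη k0 w0 hβ
    refine ⟨C, hC0, fun n m hmn => ?_⟩
    have := hC n m hmn
    rw [← norm_conj_int] at this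
    simpa only [neg_mul, neg_neg] using this
  · exact pw hb d T c hc0 hc hT x r y η hr h hη k0 w0 hβ

/-- The second moment of a block. -/
theorem moment (hb : 2 ≤ b) (d : ℕ → Fin b) (T : Set ℕ) (c : ℝ) (hc0 : 0 ≤ c) (hc : c < 1 / 2)
    (hT : Recurs b c T) (x r y η : ℝ) (hr : r ≠ 0) (hy : y ≠ 0) (hη : 0 < η) (k0 : ℕ) (w0 : ℕ → Fin b)
    (hβ : ∀ ω ∈ cyl k0 w0, 1 + 2 * η ≤ x + r * Real.ofDigits ω) (n : ℕ → ℕ) (hn : StrictMono n) :
    ∃ K : ℝ, ∀ a a' : ℕ, a ≤ a' →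
      ∫ ω in cyl k0 w0, ‖∑ j ∈ Ico a a', ee (y * (x + r * Real.ofDigits ω) ^ n j)‖ ^ 2 ∂(noise d T) ≤
        K * (a' - a : ℕ) := by
  have hprob := noise_prob hb d T
  obtain ⟨C, hC0, hC⟩ := pw2 hb d T c hc0 hc hT x r y η hr hy hη k0 w0 hβ
  refine ⟨1 + 2 * C, fun a a' haa => ?_⟩
  obtain ⟨z, hz⟩ : ∃ z : ℕ → (ℕ → Fin b) → ℂ, z = fun j ω => ee (y * (x + r * Real.ofDigits ω) ^ n j) :=
    ⟨_, rfl⟩
  have hzm : ∀ j, Measurable (z j) := by
    intro j
    rw [hz]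
    exact ee_cont.measurable.comp ((((s_meas.const_mul r).const_add x).pow_const _).const_mul y)
  have hzn : ∀ j ω, ‖z j ω‖ = 1 := fun j ω => by rw [hz]; exact ee_norm _
  have hpair : ∀ i j, Integrable (fun ω => z i ω * (starRingEnd ℂ) (z j ω)) ((noise d T).restrict (cyl k0 w0)) := by
    intro i j
    refine (Integrable.of_bound ((hzm i).mul (Complex.continuous_conj.measurable.comp (hzm j))).aestronglyMeasurable 1
      (Eventually.of_forall fun ω => ?_)).integrableOn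
    rw [Pi.mul_apply, norm_mul, Function.comp, RCLike.norm_conj, hzn, hzn, one_mul]
  have hsq : ∀ ω, ((‖∑ j ∈ Ico a a', z j ω‖ ^ 2 : ℝ) : ℂ) =
      ∑ i ∈ Ico a a', ∑ j ∈ Ico a a', z i ω * (starRingEnd ℂ) (z j ω) := by
    intro ω
    rw [Complex.ofReal_pow, ← Complex.mul_conj', map_sum, Finset.sum_mul_sum]
  have hI : ((∫ ω in cyl k0 w0, ‖∑ j ∈ Ico a a', z j ω‖ ^ 2 ∂(noise d T) : ℝ) : ℂ) =
      ∑ i ∈ Ico a a', ∑ j ∈ Ico a a', ∫ ω in cyl k0 w0, z i ω * (starRingEnd ℂ) (z j ω) ∂(noise d T) := by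
    have h1 := integral_ofReal (𝕜 := ℂ) (f := fun ω => ‖∑ j ∈ Ico a a', z j ω‖ ^ 2)
      (μ := (noise d T).restrict (cyl k0 w0))
    refine h1.symm.trans ?_
    have h2 : (fun ω => (((‖∑ j ∈ Ico a a', z j ω‖ ^ 2 : ℝ)) : ℂ)) = fun ω =>
      ∑ i ∈ Ico a a', ∑ j ∈ Ico a a', z i ω * (starRingEnd ℂ) (z j ω) := funext hsq
    refine (congrArg (fun f : (ℕ → Fin b) → ℂ => ∫ ω in cyl k0 w0, f ω ∂(noise d T)) h2).trans ?_
    rw [integral_finsetSum _ fun i _ => integrable_finsetSum _ fun j _ => hpair i j]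
    refine Finset.sum_congr rfl fun i _ => ?_
    rw [integral_finsetSum _ fun j _ => hpair i j]
  have hb1 : ∀ i j, j < i → ‖∫ ω in cyl k0 w0, z i ω * (starRingEnd ℂ) (z j ω) ∂(noise d T)‖ ≤ C / (i : ℝ) ^ 4 := by
    intro i j hji
    have e1 : ∀ ω, z i ω * (starRingEnd ℂ) (z j ω) =
        ee (y * ((x + r * Real.ofDigits ω) ^ n i - (x + r * Real.ofDigits ω) ^ n j)) := by
      intro ω
      rw [hz]
      simp only
      rw [← ee_neg, ← ee_add]
      congr 1; ring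
    simp_rw [e1]
    refine (hC (n i) (n j) (hn hji)).trans ?_
    have h1 : (i : ℝ) ≤ n i := by exact_mod_cast hn.id_le i
    have h2 : (0 : ℝ) < i := by exact_mod_cast (by omega : 0 < i)
    gcongr
  have hb2 : ∀ i j, i < j → ‖∫ ω in cyl k0 w0, z i ω * (starRingEnd ℂ) (z j ω) ∂(noise d T)‖ ≤ C / (j : ℝ) ^ 4 := by
    intro i j hij
    have e1 : ∫ ω in cyl k0 w0, z i ω * (starRingEnd ℂ) (z j ω) ∂(noise d T) =
        (starRingEnd ℂ) (∫ ω in cyl k0 w0, z j ω * (starRingEnd ℂ) (z i ω) ∂(noise d T)) := by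
      rw [← integral_conj]
      refine integral_congr_ae (Eventually.of_forall fun ω => ?_)
      simp only [map_mul, Complex.conj_conj]
      ring
    rw [e1, RCLike.norm_conj]
    exact hb1 j i hij
  have hb3 : ∀ i, ‖∫ ω in cyl k0 w0, z i ω * (starRingEnd ℂ) (z i ω) ∂(noise d T)‖ ≤ 1 := by
    intro i
    refine (norm_setIntegral_le_of_norm_le_const (C := 1) (measure_lt_top _ _) fun ω _ => ?_).trans ?_
    · rw [norm_mul, RCLike.norm_conj, hzn, one_mul]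
    · rw [one_mul]; exact measureReal_le_one
  have hnorm : ∫ ω in cyl k0 w0, ‖∑ j ∈ Ico a a', z j ω‖ ^ 2 ∂(noise d T) ≤
      ∑ i ∈ Ico a a', ∑ j ∈ Ico a a', ‖∫ ω in cyl k0 w0, z i ω * (starRingEnd ℂ) (z j ω) ∂(noise d T)‖ := by
    have h1 : 0 ≤ ∫ ω in cyl k0 w0, ‖∑ j ∈ Ico a a', z j ω‖ ^ 2 ∂(noise d T) :=
      integral_nonneg fun ω => sq_nonneg _
    have h2 : ‖((∫ ω in cyl k0 w0, ‖∑ j ∈ Ico a a', z j ω‖ ^ 2 ∂(noise d T) : ℝ) : ℂ)‖ =
        ∫ ω in cyl k0 w0, ‖∑ j ∈ Ico a a', z j ω‖ ^ 2 ∂(noise d T) := by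
      rw [Complex.norm_real, Real.norm_of_nonneg h1]
    rw [← h2, hI]
    exact (norm_sum_le _ _).trans (Finset.sum_le_sum fun i _ => norm_sum_le _ _)
  have hbound : ∀ i j, ‖∫ ω in cyl k0 w0, z i ω * (starRingEnd ℂ) (z j ω) ∂(noise d T)‖ ≤
      (if i = j then 1 else 0) + ((if j < i then C / (i : ℝ) ^ 4 else 0) + (if i < j then C / (j : ℝ) ^ 4 else 0)) := by
    intro i j
    rcases lt_trichotomy i j with h | h | h
    · rw [if_neg (by omega), if_neg (by omega), if_pos h]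
      have := hb2 i j h
      linarith
    · subst h
      rw [if_pos rfl, if_neg (lt_irrefl _)]
      have := hb3 i
      linarith
    · rw [if_neg (by omega), if_pos h, if_neg (by omega)]
      have := hb1 i j h
      linarith
  have hone : ∀ i, ∑ j ∈ Ico a a', (if j < i then C / (i : ℝ) ^ 4 else 0) ≤ C := by
    intro i
    rw [← Finset.sum_filter, Finset.sum_const, nsmul_eq_mul]
    rcases Nat.eq_zero_or_pos i with hi | hi
    · subst hi; simp [hC0]
    · have hiR : (1 : ℝ) ≤ i := by exact_mod_cast hi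
      have h1 : ((Ico a a').filter fun j => j < i).card ≤ i := by
        calc ((Ico a a').filter fun j => j < i).card ≤ (range i).card :=
              Finset.card_le_card fun j hj => Finset.mem_range.2 (Finset.mem_filter.1 hj).2
          _ = i := card_range i
      have h2 : (((Ico a a').filter fun j => j < i).card : ℝ) ≤ i := by exact_mod_cast h1
      rw [← mul_div_assoc, div_le_iff₀ (by positivity)]
      have h3 : (i : ℝ) ≤ (i : ℝ) ^ 4 := le_self_pow₀ hiR (by norm_num)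
      calc (((Ico a a').filter fun j => j < i).card : ℝ) * C ≤ (i : ℝ) ^ 4 * C := by
            gcongr; exact h2.trans h3
        _ = _ := mul_comm _ _
  have e2 : ∫ ω in cyl k0 w0, ‖∑ j ∈ Ico a a', ee (y * (x + r * Real.ofDigits ω) ^ n j)‖ ^ 2 ∂(noise d T) =
      ∫ ω in cyl k0 w0, ‖∑ j ∈ Ico a a', z j ω‖ ^ 2 ∂(noise d T) := by rw [hz]
  rw [e2]
  refine hnorm.trans ((Finset.sum_le_sum fun i _ => Finset.sum_le_sum fun j _ => hbound i j).trans ?_)
  simp only [Finset.sum_add_distrib]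
  have h1 : ∑ i ∈ Ico a a', ∑ j ∈ Ico a a', (if i = j then (1 : ℝ) else 0) ≤ (a' - a : ℕ) := by
    calc ∑ i ∈ Ico a a', ∑ j ∈ Ico a a', (if i = j then (1 : ℝ) else 0)
        ≤ ∑ _i ∈ Ico a a', (1 : ℝ) := by
          refine Finset.sum_le_sum fun i hi => ?_
          rw [Finset.sum_ite_eq]
          split_ifs <;> norm_num
      _ = (a' - a : ℕ) := by simp
  have h2 : ∑ i ∈ Ico a a', ∑ j ∈ Ico a a', (if j < i then C / (i : ℝ) ^ 4 else 0) ≤ C * (a' - a : ℕ) := by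
    calc _ ≤ ∑ _i ∈ Ico a a', C := Finset.sum_le_sum fun i _ => hone i
      _ = _ := by rw [Finset.sum_const, Nat.card_Ico, nsmul_eq_mul, mul_comm]
  have h3 : ∑ i ∈ Ico a a', ∑ j ∈ Ico a a', (if i < j then C / (j : ℝ) ^ 4 else 0) ≤ C * (a' - a : ℕ) := by
    rw [Finset.sum_comm]
    exact h2
  linarith

/-- square root cancellation on one cylinder -/
theorem cancel_cyl (hb : 2 ≤ b) (d : ℕ → Fin b) (T : Set ℕ) (c : ℝ) (hc0 : 0 ≤ c) (hc : c < 1 / 2)
    (hT : Recurs b c T) (x r y η : ℝ) (hr : r ≠ 0) (hy : y ≠ 0) (hη : 0 < η) (k0 : ℕ) (w0 : ℕ → Fin b)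
    (hβ : ∀ ω ∈ cyl k0 w0, 1 + 2 * η ≤ x + r * Real.ofDigits ω) (n : ℕ → ℕ) (hn : StrictMono n) :
    ∀ᵐ ω ∂((noise d T).restrict (cyl k0 w0)), ∃ C : ℝ, ∀ N : ℕ,
      ‖∑ j ∈ range N, ee (y * (x + r * Real.ofDigits ω) ^ n j)‖ ≤
        C * (Real.sqrt N * Real.log (N + 1) ^ 2) := by
  have hprob := noise_prob hb d T
  obtain ⟨K, hK⟩ := moment hb d T c hc0 hc hT x r y η hr hy hη k0 w0 hβ n hn
  obtain ⟨z, hz⟩ : ∃ z : ℕ → (ℕ → Fin b) → ℂ, z = fun j ω => ee (y * (x + r * Real.ofDigits ω) ^ n j) :=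
    ⟨_, rfl⟩
  have hzm : ∀ j, Measurable (z j) := by
    intro j
    rw [hz]
    exact ee_cont.measurable.comp ((((s_meas.const_mul r).const_add x).pow_const _).const_mul y)
  have hzn : ∀ j ω, ‖z j ω‖ = 1 := fun j ω => by rw [hz]; exact ee_norm _
  have hSm : ∀ a a', Measurable fun ω => ∑ j ∈ Ico a a', z j ω := fun a a' =>
    Finset.measurable_fun_sum _ fun j _ => hzm j
  have hSn : ∀ a a' ω, ‖∑ j ∈ Ico a a', z j ω‖ ≤ (a' - a : ℕ) := by
    intro a a' ω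
    refine (norm_sum_le _ _).trans ?_
    simp [hzn]
  have hK' : ∀ a a' : ℕ, a ≤ a' → ∫ ω in cyl k0 w0, ‖∑ j ∈ Ico a a', z j ω‖ ^ 2 ∂(noise d T) ≤ K * (a' - a : ℕ) := by
    intro a a' h
    rw [hz]; exact hK a a' h
  have hIS : ∀ a a', Integrable (fun ω => ‖∑ j ∈ Ico a a', z j ω‖ ^ 2) ((noise d T).restrict (cyl k0 w0)) := by
    intro a a'
    refine (Integrable.of_bound ((hSm a a').norm.pow_const 2).aestronglyMeasurable (((a' - a : ℕ) : ℝ) ^ 2)
      (Eventually.of_forall fun ω => ?_)).integrableOn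
    rw [Real.norm_eq_abs, abs_of_nonneg (sq_nonneg _)]
    exact pow_le_pow_left₀ (norm_nonneg _) (hSn a a' ω) 2
  have hre := rm ((noise d T).restrict (cyl k0 w0)) (fun j ω => (z j ω).re)
    (fun j => Complex.measurable_re.comp (hzm j))
    (fun j ω => (Complex.abs_re_le_norm _).trans (hzn j ω).le) K (fun a a' h => by
      refine le_trans (integral_mono_of_nonneg (Eventually.of_forall fun ω => sq_nonneg _) (hIS a a')
        (Eventually.of_forall fun ω => ?_)) (hK' a a' h)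
      simp only
      have e1 : bl (fun j => (z j ω).re) a a' = (∑ j ∈ Ico a a', z j ω).re := by
        unfold bl; rw [Complex.re_sum]
      rw [e1, ← sq_abs]
      exact pow_le_pow_left₀ (abs_nonneg _) (Complex.abs_re_le_norm _) 2)
  have him := rm ((noise d T).restrict (cyl k0 w0)) (fun j ω => (z j ω).im)
    (fun j => Complex.measurable_im.comp (hzm j))
    (fun j ω => (Complex.abs_im_le_norm _).trans (hzn j ω).le) K (fun a a' h => by
      refine le_trans (integral_mono_of_nonneg (Eventually.of_forall fun ω => sq_nonneg _) (hIS a a')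
        (Eventually.of_forall fun ω => ?_)) (hK' a a' h)
      simp only
      have e1 : bl (fun j => (z j ω).im) a a' = (∑ j ∈ Ico a a', z j ω).im := by
        unfold bl; rw [Complex.im_sum]
      rw [e1, ← sq_abs]
      exact pow_le_pow_left₀ (abs_nonneg _) (Complex.abs_im_le_norm _) 2)
  filter_upwards [hre, him] with ω h1 h2
  obtain ⟨C1, hC1⟩ := h1
  obtain ⟨C2, hC2⟩ := h2
  refine ⟨C1 + C2, fun N => ?_⟩
  have e1 : ∑ j ∈ range N, ee (y * (x + r * Real.ofDigits ω) ^ n j) = ∑ j ∈ range N, z j ω := by rw [hz]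
  rw [e1, add_mul]
  refine (Complex.norm_le_abs_re_add_abs_im _).trans ?_
  rw [Complex.re_sum, Complex.im_sum]
  exact add_le_add (hC1 N) (hC2 N)

end Q83.NP
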