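import Pool.Agent.Q83.NP.H

/-!
# Digit noise: almost all digit sequences; equidistribution; sparse sets of places
-/

set_option autoImplicit false
set_option linter.unusedSectionVars false

open MeasureTheory Filter Topology Finset
open scoped ENNReal
open Pool.Agent.H493R3 (ee ee_norm ee_add ee_neg ee_int ee_lip)

namespace Q83.NP

variable {b : ℕ} [NeZero b]

/-- extend a finite word by zero -/
def extw {k : ℕ} (v : Fin k → Fin b) (i : ℕ) : Fin b := if h : i < k then v ⟨i, h⟩ else 0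

/-- **Square root cancellation for almost all digit sequences.** -/
theorem cancel (hb : 2 ≤ b) (d : ℕ → Fin b) (T : Set ℕ) (c : ℝ) (hc : c < 1 / 2)
    (hT : Recurs b c T) (x r ξ : ℝ) (hr : r ≠ 0) (hξ : ξ ≠ 0) (n : ℕ → ℕ) (hn : StrictMono n) :
    ∀ᵐ ω ∂(noise d T), 1 < x + r * Real.ofDigits ω → ∀ h : ℤ, h ≠ 0 → ∃ C : ℝ, ∀ N : ℕ,
      ‖∑ j ∈ range N, ee (h * ξ * (x + r * Real.ofDigits ω) ^ n j)‖ ≤
        C * (Real.sqrt N * Real.log (N + 1) ^ 2) := by
  have hT' : Recurs b (max c 0) T := hT.mono hb (le_max_left _ _)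
  have hc' : max c 0 < 1 / 2 := max_lt hc (by norm_num)
  have h1 : ∀ (p : (Σ k : ℕ, Fin k → Fin b) × ℕ × ℤ), p.2.2 ≠ 0 →
      (∀ ω ∈ cyl p.1.1 (extw p.1.2), 1 + 2 * (1 / ((p.2.1 : ℝ) + 1)) ≤ x + r * Real.ofDigits ω) →
      ∀ᵐ ω ∂(noise d T), ω ∈ cyl p.1.1 (extw p.1.2) → ∃ C : ℝ, ∀ N : ℕ,
      ‖∑ j ∈ range N, ee (p.2.2 * ξ * (x + r * Real.ofDigits ω) ^ n j)‖ ≤
        C * (Real.sqrt N * Real.log (N + 1) ^ 2) := by
    intro p hp0 hp1
    rw [← ae_restrict_iff' (cyl_meas _ _)]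
    exact cancel_cyl hb d T (max c 0) (le_max_right _ _) hc' hT' x r (p.2.2 * ξ)
      (1 / ((p.2.1 : ℝ) + 1)) hr (mul_ne_zero (by exact_mod_cast hp0) hξ) (by positivity) _ _ hp1 n hn
  have h2 : ∀ᵐ ω ∂(noise d T), ∀ (p : (Σ k : ℕ, Fin k → Fin b) × ℕ × ℤ), p.2.2 ≠ 0 →
      (∀ ω ∈ cyl p.1.1 (extw p.1.2), 1 + 2 * (1 / ((p.2.1 : ℝ) + 1)) ≤ x + r * Real.ofDigits ω) →
      ω ∈ cyl p.1.1 (extw p.1.2) → ∃ C : ℝ, ∀ N : ℕ,
      ‖∑ j ∈ range N, ee (p.2.2 * ξ * (x + r * Real.ofDigits ω) ^ n j)‖ ≤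
        C * (Real.sqrt N * Real.log (N + 1) ^ 2) := by
    rw [ae_all_iff]
    intro p
    by_cases hp0 : p.2.2 ≠ 0
    · by_cases hp1 : ∀ ω ∈ cyl p.1.1 (extw p.1.2), 1 + 2 * (1 / ((p.2.1 : ℝ) + 1)) ≤ x + r * Real.ofDigits ω
      · filter_upwards [h1 p hp0 hp1] with ω hω _ _
        exact hω
      · exact Eventually.of_forall fun ω _ h => absurd h hp1
    · exact Eventually.of_forall fun ω h => absurd h hp0
  have hb1 : (1 : ℝ) < b := by exact_mod_cast (by omega : 1 < b)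
  filter_upwards [h2] with ω hω hβ h hh
  obtain ⟨m, hm⟩ := exists_nat_one_div_lt (show 0 < (x + r * Real.ofDigits ω - 1) / 3 by linarith)
  obtain ⟨k, hk⟩ := pow_unbounded_of_one_lt (|r| * ((m : ℝ) + 1)) hb1
  have hbk : (0 : ℝ) < (b : ℝ) ^ k := by positivity
  have hmem : ω ∈ cyl k (extw fun i : Fin k => ω i) := by
    intro i hi
    unfold extw
    rw [dif_pos hi]
  refine hω ((⟨k, fun i : Fin k => ω i⟩, m, h)) hh ?_ hmem
  intro ω' hω'
  simp only at hω' ⊢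
  have h3 : ω' ∈ cyl k ω := by
    intro i hi
    rw [hω' i hi, hmem i hi]
  have h4 := cyl_near ω h3
  have h5 : |r * Real.ofDigits ω' - r * Real.ofDigits ω| ≤ 1 / ((m : ℝ) + 1) := by
    rw [← mul_sub, abs_mul]
    calc |r| * |Real.ofDigits ω' - Real.ofDigits ω| ≤ |r| * ((b : ℝ) ^ k)⁻¹ := by gcongr
      _ ≤ _ := by
          rw [← div_eq_mul_inv, div_le_div_iff₀ hbk (by positivity), one_mul]
          exact hk.le
  have h6 := (abs_le.1 h5).1
  linarith

/-! ### Equidistribution -/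

open Classical in
/-- equidistribution modulo one -/
def Equi (u : ℕ → ℝ) : Prop := ∀ s t : ℝ, 0 ≤ s → s < t → t ≤ 1 →
  Tendsto (fun N : ℕ => (#{j ∈ range N | s ≤ Int.fract (u j) ∧ Int.fract (u j) < t} : ℝ) / N)
    atTop (𝓝 (t - s))

theorem equi_of_weyl (u : ℕ → ℝ)
    (hW : ∀ h : ℕ, 1 ≤ h → Tendsto (fun M : ℕ => ‖∑ j ∈ range M, ee (h * u j)‖ / M) atTop (𝓝 0)) :
    Equi u := by
  classical
  obtain ⟨x, hxd⟩ : ∃ x : ℕ → Pool.Agent.H493R3.Circ, x = fun j => ((u j : ℝ) : Pool.Agent.H493R3.Circ) :=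
    ⟨_, rfl⟩
  have hx : ∀ n : ℤ, n ≠ 0 →
      Tendsto (fun M => Pool.Agent.H493R3.avg x (fun y => (fourier n y : ℂ)) M) atTop (𝓝 0) := by
    intro n hn
    rw [tendsto_zero_iff_norm_tendsto_zero]
    have hn1 : 1 ≤ n.natAbs := Int.natAbs_pos.mpr hn
    refine (hW n.natAbs hn1).congr (fun M => ?_)
    unfold Pool.Agent.H493R3.avg
    rw [norm_div, Complex.norm_natCast]
    congr 1
    have e : ∀ j, (fourier n (x j) : ℂ) = ee (n * u j) := by
      intro j
      rw [hxd, Pool.Agent.H493R3.fourier_ee]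
    simp_rw [e]
    rcases Int.natAbs_eq n with h | h
    · have h2 : (n : ℝ) = (n.natAbs : ℝ) := by
        have : ((n : ℤ) : ℝ) = (((n.natAbs : ℕ) : ℤ) : ℝ) := by rw [← h]
        rw [this, Int.cast_natCast]
      rw [h2]
    · have h2 : (n : ℝ) = -(n.natAbs : ℝ) := by
        have : ((n : ℤ) : ℝ) = ((-((n.natAbs : ℕ) : ℤ) : ℤ) : ℝ) := by rw [← h]
        rw [this, Int.cast_neg, Int.cast_natCast]
      rw [h2]
      have e2 : ∀ j, ee (-(n.natAbs : ℝ) * u j) =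
          (starRingEnd ℂ) (ee ((n.natAbs : ℝ) * u j)) := by
        intro j
        rw [neg_mul, ee_neg]
      simp_rw [e2]
      rw [← map_sum, RCLike.norm_conj]
  obtain ⟨cnt, hcnt⟩ : ∃ cnt : ℝ → ℝ → ℕ → ℝ, cnt = fun s t N =>
      (#{j ∈ range N | s ≤ Int.fract (u j) ∧ Int.fract (u j) < t} : ℝ) / N := ⟨_, rfl⟩
  have hup : ∀ s t : ℝ, 0 ≤ s → s ≤ t → t ≤ 1 → ∀ ε : ℝ, 0 < ε →
      ∀ᶠ N : ℕ in atTop, cnt s t N < (t - s) + ε := by
    intro s t hs hst ht ε hε
    obtain ⟨E, hE⟩ : ∃ E : Set Pool.Agent.H493R3.Circ,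
      E = (fun t : ℝ => (t : Pool.Agent.H493R3.Circ)) '' Set.Icc s t := ⟨_, rfl⟩
    have hcl : IsClosed E := by
      rw [hE]
      exact (isCompact_Icc.image (AddCircle.continuous_mk' (1 : ℝ))).isClosed
    have hv : volume E ≤ ENNReal.ofReal (t - s) := by
      rw [hE]
      exact Pool.Agent.H493R3.volume_arc s t (by linarith)
    filter_upwards [Pool.Agent.H493R3.closed_upper x hx hcl (t - s) (by linarith) hv ε hε] with N hN
    refine lt_of_le_of_lt ?_ hN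
    rw [hcnt]
    simp only
    have hsub : {j ∈ range N | s ≤ Int.fract (u j) ∧ Int.fract (u j) < t} ⊆ {j ∈ range N | x j ∈ E} := by
      intro j hj
      rw [Finset.mem_filter] at hj ⊢
      refine ⟨hj.1, ?_⟩
      rw [hE, hxd]
      refine ⟨Int.fract (u j), ⟨hj.2.1, hj.2.2.le⟩, ?_⟩
      change ((u j - ⌊u j⌋ : ℝ) : Pool.Agent.H493R3.Circ) = (u j : Pool.Agent.H493R3.Circ)
      rw [AddCircle.coe_sub]
      have : ((⌊u j⌋ : ℝ) : Pool.Agent.H493R3.Circ) = 0 := by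
        rw [AddCircle.coe_eq_zero_iff]
        exact ⟨⌊u j⌋, by simp⟩
      rw [this, sub_zero]
    have := Finset.card_le_card hsub
    gcongr
  intro s t hs hst ht
  have hsum : ∀ N : ℕ, 0 < N → 1 ≤ cnt 0 s N + cnt s t N + cnt t 1 N := by
    intro N hN
    rw [hcnt]
    simp only
    rw [← add_div, ← add_div, le_div_iff₀ (by exact_mod_cast hN), one_mul]
    have hsub : range N ⊆ ({j ∈ range N | 0 ≤ Int.fract (u j) ∧ Int.fract (u j) < s} ∪
        {j ∈ range N | s ≤ Int.fract (u j) ∧ Int.fract (u j) < t}) ∪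
        {j ∈ range N | t ≤ Int.fract (u j) ∧ Int.fract (u j) < 1} := by
      intro j hj
      have h0 := Int.fract_nonneg (u j)
      have h1 := Int.fract_lt_one (u j)
      rw [Finset.mem_union, Finset.mem_union, Finset.mem_filter, Finset.mem_filter, Finset.mem_filter]
      rcases lt_or_ge (Int.fract (u j)) s with h2 | h2
      · exact Or.inl (Or.inl ⟨hj, h0, h2⟩)
      · rcases lt_or_ge (Int.fract (u j)) t with h3 | h3
        · exact Or.inl (Or.inr ⟨hj, h2, h3⟩)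
        · exact Or.inr ⟨hj, h3, h1⟩
    have h2 := (Finset.card_le_card hsub).trans
      ((Finset.card_union_le _ _).trans (Nat.add_le_add_right (Finset.card_union_le _ _) _))
    rw [card_range] at h2
    exact_mod_cast h2
  have hgoal : Tendsto (fun N => cnt s t N) atTop (𝓝 (t - s)) := by
    rw [Metric.tendsto_atTop]
    intro ε hε
    have hall := ((hup s t hs hst.le ht ε hε).and ((hup 0 s le_rfl hs (by linarith) (ε / 2) (by positivity)).and
      (hup t 1 (by linarith) ht le_rfl (ε / 2) (by positivity)))).and (eventually_gt_atTop 0)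
    obtain ⟨N0, hN0⟩ := eventually_atTop.1 hall
    refine ⟨N0, fun N hN => ?_⟩
    obtain ⟨⟨h1, h2, h3⟩, h4⟩ := hN0 N hN
    have h5 := hsum N h4
    rw [Real.dist_eq, abs_lt]
    constructor <;> linarith
  rw [hcnt] at hgoal
  exact hgoal

/-- a power saving in the exponential sums implies equidistribution -/
theorem equi_of_bound (u : ℕ → ℝ)
    (hW : ∀ h : ℤ, h ≠ 0 → ∃ C : ℝ, ∀ N : ℕ, ‖∑ j ∈ range N, ee (h * u j)‖ ≤
      C * (Real.sqrt N * Real.log (N + 1) ^ 2)) : Equi u := by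
  refine equi_of_weyl u fun h hh => ?_
  obtain ⟨C, hC⟩ := hW h (by exact_mod_cast (by omega : h ≠ 0))
  have hC' : ∀ N : ℕ, ‖∑ j ∈ range N, ee (h * u j)‖ / N ≤
      (max C 0) * (Real.sqrt N * Real.log (N + 1) ^ 2 / N) := by
    intro N
    rw [← mul_div_assoc]
    gcongr
    have h1 := hC N
    simp only [Int.cast_natCast] at h1
    refine h1.trans ?_
    gcongr
    exact le_max_left _ _
  refine squeeze_zero (fun N => by positivity) hC' ?_
  have h2 : Tendsto (fun N : ℕ => Real.sqrt N * Real.log (N + 1) ^ 2 / N) atTop (𝓝 0) := by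
    have h3 : (fun x : ℝ => Real.log x ^ 2) =o[atTop] fun x : ℝ => x ^ (1 / 2 : ℝ) := by
      have := isLittleO_log_rpow_rpow_atTop (s := (1 / 2 : ℝ)) 2 (by norm_num)
      simpa using this
    have h4 : Tendsto (fun x : ℝ => Real.log x ^ 2 / x ^ (1 / 2 : ℝ)) atTop (𝓝 0) := h3.tendsto_div_nhds_zero
    have h5 : Tendsto (fun N : ℕ => Real.log ((N : ℝ) + 1) ^ 2 / ((N : ℝ) + 1) ^ (1 / 2 : ℝ)) atTop (𝓝 0) :=
      h4.comp (tendsto_atTop_add_const_right _ 1 tendsto_natCast_atTop_atTop)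
    have h6 : Tendsto (fun N : ℕ => 2 * (Real.log ((N : ℝ) + 1) ^ 2 / ((N : ℝ) + 1) ^ (1 / 2 : ℝ))) atTop (𝓝 0) := by
      simpa using h5.const_mul 2
    refine squeeze_zero' (Eventually.of_forall fun N => by positivity) ?_ h6
    filter_upwards [eventually_ge_atTop 1] with N hN
    have hNR : (1 : ℝ) ≤ N := by exact_mod_cast hN
    rw [← Real.sqrt_eq_rpow]
    have h7 : Real.sqrt N * Real.log (N + 1) ^ 2 / N = Real.log (N + 1) ^ 2 / Real.sqrt N := by
      rw [div_eq_div_iff (by positivity) (by positivity)]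
      have := Real.mul_self_sqrt (by linarith : (0 : ℝ) ≤ N)
      calc Real.sqrt N * Real.log (N + 1) ^ 2 * Real.sqrt N =
          Real.log (N + 1) ^ 2 * (Real.sqrt N * Real.sqrt N) := by ring
        _ = _ := by rw [this]
    rw [h7, ← mul_div_assoc, div_le_div_iff₀ (by positivity) (by positivity)]
    have h8 : Real.sqrt (N + 1) ≤ 2 * Real.sqrt N := by
      have : Real.sqrt (N + 1) ≤ Real.sqrt (4 * N) := Real.sqrt_le_sqrt (by linarith)
      rw [Real.sqrt_mul (by norm_num), show (4 : ℝ) = 2 ^ 2 by norm_num, Real.sqrt_sq (by norm_num)] at this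
      exact this
    calc Real.log (N + 1) ^ 2 * Real.sqrt (N + 1) ≤ Real.log (N + 1) ^ 2 * (2 * Real.sqrt N) := by gcongr
      _ = _ := by ring
  simpa using h2.const_mul (max C 0)

end Q83.NP
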