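import Pool.Agent.Q83.NP.I

/-!
# Sparse sets of places with logarithmic gaps
-/

set_option autoImplicit false

open MeasureTheory Filter Topology Finset

namespace Q83.NP

/-- partial sums of the gaps -/
def tt (B k : ℕ) : ℕ := ∑ i ∈ range k, (Nat.log B (i + 2) + 1)

lemma tt_succ (B k : ℕ) : tt B (k + 1) = tt B k + (Nat.log B (k + 2) + 1) := by
  unfold tt; rw [Finset.sum_range_succ]

lemma tt_ge (B k : ℕ) : k ≤ tt B k := by
  induction k with
  | zero => exact Nat.zero_le _
  | succ k ih => rw [tt_succ]; omega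

lemma tt_mono (B : ℕ) : StrictMono (tt B) :=
  strictMono_nat_of_lt_succ fun k => by rw [tt_succ]; omega

/-- the next element of the set after `x` is near -/
lemma tt_near (B x : ℕ) : ∃ k, x ≤ tt B k ∧ tt B k ≤ x + (Nat.log B (x + 2) + 1) := by
  classical
  have hex : ∃ k, x ≤ tt B k := ⟨x, tt_ge B x⟩
  refine ⟨Nat.find hex, Nat.find_spec hex, ?_⟩
  obtain ⟨k, hk⟩ : ∃ k, k = Nat.find hex := ⟨_, rfl⟩
  rw [← hk]
  cases k with
  | zero => simp [tt]
  | succ k =>
    have h1 : ¬ x ≤ tt B k := Nat.find_min hex (by omega)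
    have h2 : k ≤ x := by
      have := tt_ge B k
      omega
    rw [tt_succ]
    have h3 : Nat.log B (k + 2) ≤ Nat.log B (x + 2) := Nat.log_mono_right (by omega)
    omega

open Classical in
theorem exists_sparse (b : ℕ) (hb : 2 ≤ b) (c : ℝ) (hc : 0 < c) :
    ∃ T : Set ℕ, Recurs b c T ∧
      Tendsto (fun N : ℕ => (#{t ∈ range N | t ∈ T} : ℝ) / N) atTop (𝓝 0) := by
  have hbR : (2 : ℝ) ≤ b := by exact_mod_cast hb
  have hlb : 0 < Real.log b := Real.log_pos (by linarith)
  obtain ⟨B, hB⟩ := exists_nat_gt (Real.exp (4 * Real.log b / c))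
  have hBpos : (0 : ℝ) < B := (Real.exp_pos _).trans hB
  have hlB : 4 * Real.log b / c < Real.log B := by
    rw [← Real.log_exp (4 * Real.log b / c)]
    exact Real.log_lt_log (Real.exp_pos _) hB
  have hlB0 : 0 < Real.log B := lt_trans (by positivity) hlB
  have hB1 : 1 < B := by
    have : (1 : ℝ) < B := (Real.log_pos_iff hBpos.le).1 hlB0
    exact_mod_cast this
  refine ⟨Set.range (tt B), ?_, ?_⟩
  · -- short gaps
    have h1 : Tendsto (fun x : ℕ => Real.log (x : ℝ)) atTop atTop :=
      Real.tendsto_log_atTop.comp tendsto_natCast_atTop_atTop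
    have hlarge := h1.eventually_ge_atTop (2 * Real.log b / c + 1)
    filter_upwards [hlarge, eventually_ge_atTop 2] with x hx hx2
    obtain ⟨k, hk1, hk2⟩ := tt_near B x
    refine ⟨tt B k, ⟨k, rfl⟩, hk1, ?_⟩
    have hxR : (2 : ℝ) ≤ x := by exact_mod_cast hx2
    have hlx : 0 < Real.log x := Real.log_pos (by linarith)
    have h2 : ((Nat.log B (x + 2) : ℕ) : ℝ) ≤ 2 * Real.log x / Real.log B := by
      have h3 : (B : ℝ) ^ (Nat.log B (x + 2)) ≤ (x : ℝ) ^ 2 := by
        have h4 : B ^ (Nat.log B (x + 2)) ≤ x + 2 := Nat.pow_log_le_self B (by omega)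
        have h5 : (B : ℝ) ^ (Nat.log B (x + 2)) ≤ (x : ℝ) + 2 := by exact_mod_cast h4
        nlinarith
      have h6 := Real.log_le_log (by positivity) h3
      rw [Real.log_pow, Real.log_pow] at h6
      rw [le_div_iff₀ hlB0]
      exact_mod_cast h6
    have h7 : (tt B k : ℝ) ≤ x + ((Nat.log B (x + 2) : ℕ) + 1) := by exact_mod_cast hk2
    refine h7.trans ?_
    have h8 : 2 * Real.log x / Real.log B ≤ c / 2 * Real.logb b x := by
      rw [Real.logb, ← mul_div_assoc, div_le_div_iff₀ hlB0 hlb]
      have h9 : 4 * Real.log b < c * Real.log B := by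
        rw [div_lt_iff₀ hc] at hlB; linarith
      nlinarith
    have h10 : 1 ≤ c / 2 * Real.logb b x := by
      rw [Real.logb, ← mul_div_assoc, le_div_iff₀ hlb]
      have h11 : c * (2 * Real.log b / c + 1) ≤ c * Real.log x := by gcongr
      have h12 : c * (2 * Real.log b / c + 1) = 2 * Real.log b + c := by field_simp
      rw [h12] at h11
      linarith
    linarith
  · -- density zero
    rw [Metric.tendsto_atTop]
    intro ε hε
    obtain ⟨M, hM⟩ := exists_nat_gt (2 / ε)
    have hMpos : (0 : ℝ) < M := lt_trans (by positivity) hM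
    have hM0 : 0 < M := by exact_mod_cast hMpos
    -- the gaps are at least `M` from `K` on
    have hgap : ∀ k, B ^ M ≤ k → tt B k + M ≤ tt B (k + 1) := by
      intro k hk
      rw [tt_succ]
      have : M ≤ Nat.log B (k + 2) := by
        have h1 := Nat.log_mono_right (b := B) (hk.trans (Nat.le_add_right k 2))
        rwa [Nat.log_pow hB1] at h1
      omega
    have hlow : ∀ j, M * j ≤ tt B (B ^ M + j) := by
      intro j
      induction j with
      | zero => simp
      | succ j ih =>
        have h1 := hgap (B ^ M + j) (Nat.le_add_right _ _)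
        have e : B ^ M + (j + 1) = B ^ M + j + 1 := by ring
        rw [e, Nat.mul_succ]
        omega
    have hcard : ∀ N : ℕ, #{t ∈ range N | t ∈ Set.range (tt B)} ≤ B ^ M + (N / M + 1) := by
      intro N
      have hsub : {t ∈ range N | t ∈ Set.range (tt B)} ⊆ (range (B ^ M + (N / M + 1))).image (tt B) := by
        intro t ht
        rw [Finset.mem_filter, Finset.mem_range] at ht
        obtain ⟨ht1, k, rfl⟩ := ht
        rw [Finset.mem_image]
        refine ⟨k, ?_, rfl⟩
        rw [Finset.mem_range]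
        by_contra hcon
        push Not at hcon
        have h1 : tt B (B ^ M + (N / M + 1)) ≤ tt B k := (tt_mono B).monotone hcon
        have h2 := hlow (N / M + 1)
        have h3 : N < M * (N / M + 1) := Nat.lt_mul_div_succ N hM0
        omega
      refine (Finset.card_le_card hsub).trans (Finset.card_image_le.trans ?_)
      rw [card_range]
    obtain ⟨N0, hN0⟩ := exists_nat_gt (2 * ((B : ℝ) ^ M + 1) / ε)
    refine ⟨max N0 1, fun N hN => ?_⟩
    have hN1 : 1 ≤ N := (le_max_right _ _).trans hN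
    have hNR : (0 : ℝ) < N := by exact_mod_cast hN1
    have hN0' : (N0 : ℝ) ≤ N := by exact_mod_cast (le_max_left _ _).trans hN
    rw [Real.dist_eq, sub_zero, abs_of_nonneg (by positivity), div_lt_iff₀ hNR]
    have h1 : (#{t ∈ range N | t ∈ Set.range (tt B)} : ℝ) ≤ (B : ℝ) ^ M + ((N / M : ℕ) + 1) := by
      exact_mod_cast hcard N
    have h2 : ((N / M : ℕ) : ℝ) ≤ N / M := Nat.cast_div_le
    have h3 : (N : ℝ) / M ≤ ε / 2 * N := by
      rw [div_le_iff₀ hMpos]
      have h4 : 2 < M * ε := by rwa [div_lt_iff₀ hε] at hM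
      nlinarith
    have h5 : (B : ℝ) ^ M + 1 < ε / 2 * N := by
      have h6 : 2 * ((B : ℝ) ^ M + 1) < N0 * ε := by rwa [div_lt_iff₀ hε] at hN0
      nlinarith
    linarith

end Q83.NP
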